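import Pool.Agent.Helper36.FX.NearOpt
import Pool.Agent.Helper24.UB.AsLast
import Pool.Agent.Helper84.FL.Geom

/-!
# MP_be0fb5, full answer: wide lattice-free bodies are close to a simplex
-/

set_option autoImplicit false

namespace Pool.Agent.Helper36.FX

open Matrix Pool.Agent.Helper12.LW
open Pool.Agent.Helper84.FL (WidthLe)

namespace NearOpt

variable {K : Set (Fin 3 → ℝ)} {s : ℝ} {c : Fin 3 → ℝ} {v : Fin 4 → Fin 3 → ℝ} {b : Fin 4 → ℝ} {p : Fin 4 → Fin 3 → ℝ}

/-- the coordinates have sum one -/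
theorem sum_L (h : NearOpt K s c v b p) (z : Fin 3 → ℝ) : ∑ k, (b k - v k ⬝ᵥ z) = 1 := by
  rw [Finset.sum_sub_distrib, ← sum_dotProduct, h.sum_v, zero_dotProduct, sub_zero, h.sum_b]

theorem L_nonneg (h : NearOpt K s c v b p) (k : Fin 4) {z : Fin 3 → ℝ} (hz : z ∈ K) : 0 ≤ b k - v k ⬝ᵥ z :=
  sub_nonneg.2 (h.le k z hz)

theorem L_le (h : NearOpt K s c v b p) (k : Fin 4) {z : Fin 3 → ℝ} (hz : z ∈ K) : b k - v k ⬝ᵥ z ≤ 1 := by
  rw [← h.sum_L z]
  exact Finset.single_le_sum (f := fun k => b k - v k ⬝ᵥ z) (fun l _ => h.L_nonneg l hz) (Finset.mem_univ k)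

theorem L_comb (v0 : Fin 3 → ℝ) (b0 t : ℝ) (x y : Fin 3 → ℝ) :
    b0 - v0 ⬝ᵥ (x - t • (y - x)) = (1 + t) * (b0 - v0 ⬝ᵥ x) - t * (b0 - v0 ⬝ᵥ y) := by
  rw [dotProduct_sub, dotProduct_smul, dotProduct_sub, smul_eq_mul]
  ring

/-- the points `p k` are the farthest ones -/
theorem far (h : NearOpt K s c v b p) (k : Fin 4) {z : Fin 3 → ℝ} (hz : z ∈ K) :
    b k - v k ⬝ᵥ z ≤ b k - v k ⬝ᵥ p k := by
  have hs : 0 < s := by linarith [h.one_le]
  have h1 := h.L_nonneg k (h.centre z hz)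
  rw [L_comb] at h1
  have h2 : s * ((1 + 1 / s) * (b k - v k ⬝ᵥ c) - 1 / s * (b k - v k ⬝ᵥ z)) =
      (1 + s) * (b k - v k ⬝ᵥ c) - (b k - v k ⬝ᵥ z) := by
    field_simp
    ring
  have h3 := mul_nonneg hs.le h1
  rw [h2] at h3
  rw [h.val k]
  linarith

/-- the deficits have sum `3 - s` -/
theorem eps (h : NearOpt K s c v b p) : ∑ k, (1 - (b k - v k ⬝ᵥ p k)) = 3 - s := by
  simp only [h.val]
  rw [Finset.sum_sub_distrib, ← Finset.mul_sum, h.sum_L c]
  simp only [Finset.sum_const, Finset.card_univ, Fintype.card_fin, nsmul_eq_mul, mul_one, Nat.cast_ofNat]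
  ring

theorem le_three (h : NearOpt K s c v b p) : s ≤ 3 := by
  have h1 := h.eps
  have h2 : 0 ≤ ∑ k, (1 - (b k - v k ⬝ᵥ p k)) := Finset.sum_nonneg fun k _ => sub_nonneg.2 (h.L_le k (h.mem k))
  linarith

/-- the opposite points are in the body -/
theorem qmem (h : NearOpt K s c v b p) (k : Fin 4) : c - (1 / s) • (p k - c) ∈ K := h.centre _ (h.mem k)

/-- the coordinates of the opposite points -/
theorem qval (h : NearOpt K s c v b p) (k j : Fin 4) :
    b j - v j ⬝ᵥ (c - (1 / s) • (p k - c)) = ((b j - v j ⬝ᵥ p j) - (b j - v j ⬝ᵥ p k)) / s := by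
  have hs : 0 < s := by linarith [h.one_le]
  rw [L_comb, h.val j]
  field_simp
  ring

/-- the opposite points are on the facets -/
theorem qzero (h : NearOpt K s c v b p) (k : Fin 4) : b k - v k ⬝ᵥ (c - (1 / s) • (p k - c)) = 0 := by
  rw [h.qval k k, sub_self, zero_div]

theorem span (h : NearOpt K s c v b p) (hs : 2 < s) (u : Fin 3 → ℝ) (hu : ∀ k, v k ⬝ᵥ u = 0) : u = 0 := by
  have h1 : Near K 2 v b p (fun k => c - (1 / s) • (p k - c)) := {
    sum_v := h.sum_v
    sum_b := h.sum_b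
    le := h.le
    mem := h.mem
    far := fun k z hz => by linarith [h.far k hz]
    memy := h.qmem
    touch := fun k => by linarith [h.qzero k]
    big := by
      have h2 := h.eps
      rw [Finset.sum_sub_distrib] at h2
      simp only [Finset.sum_const, Finset.card_univ, Fintype.card_fin, nsmul_eq_mul, mul_one,
        Nat.cast_ofNat] at h2
      linarith }
  exact h1.span le_rfl u hu

/-- the form `∑ (v k)(v k)ᵀ` is positive definite -/
theorem posDef (h : NearOpt K s c v b p) (hs : 2 < s) :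
    (Matrix.of fun i j => ∑ k, v k i * v k j : Matrix (Fin 3) (Fin 3) ℝ).PosDef := by
  refine Matrix.PosDef.of_dotProduct_mulVec_pos ?_ fun x hx => ?_
  · ext i j
    simp only [Matrix.conjTranspose_apply, Matrix.of_apply, star_trivial]
    exact Finset.sum_congr rfl fun k _ => mul_comm _ _
  · have h1 : star x ⬝ᵥ (Matrix.of fun i j => ∑ k, v k i * v k j : Matrix (Fin 3) (Fin 3) ℝ) *ᵥ x =
        ∑ k, (v k ⬝ᵥ x) ^ 2 := by
      simp only [star_trivial, dotProduct, mulVec, Matrix.of_apply, Fin.sum_univ_three, Fin.sum_univ_four]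
      ring
    rw [h1]
    by_contra hcon
    push Not at hcon
    have h2 := (Finset.sum_eq_zero_iff_of_nonneg fun k _ => sq_nonneg (v k ⬝ᵥ x)).1
      (le_antisymm hcon (Finset.sum_nonneg fun k _ => sq_nonneg _))
    exact hx (h.span hs x fun k => pow_eq_zero_iff two_ne_zero |>.1 (h2 k (Finset.mem_univ k)))

/-- a half space which contains `K` contains the points `p k` and the opposite points: the consequences for a
functional `∑ r j * L j` with value at least `w` on `K` -/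
theorem cut (h : NearOpt K s c v b p) (r : Fin 4 → ℝ) (w : ℝ) (hr : ∀ z ∈ K, w ≤ ∑ j, r j * (b j - v j ⬝ᵥ z)) :
    (∀ t, w ≤ ∑ j, r j * (b j - v j ⬝ᵥ p t)) ∧
      ∀ t, s * w ≤ ∑ j, r j * ((b j - v j ⬝ᵥ p j) - (b j - v j ⬝ᵥ p t)) := by
  refine ⟨fun t => hr _ (h.mem t), fun t => ?_⟩
  have hs : 0 < s := by linarith [h.one_le]
  have h1 := hr _ (h.qmem t)
  simp only [h.qval] at h1
  have h2 := mul_le_mul_of_nonneg_left h1 hs.le
  refine h2.trans (le_of_eq ?_)
  rw [Finset.mul_sum]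
  refine Finset.sum_congr rfl fun j _ => ?_
  field_simp

end NearOpt

/-- **Wide lattice-free bodies are close to a simplex.** -/
theorem exists_nearOpt_of_width {K : Set (Fin 3 → ℝ)} (hK : LFree K) {w : ℝ} (hw : ¬ WidthLe K w) :
    ∃ s c v b p, NearOpt K s c v b p ∧ w < 3 / 2 + Real.sqrt (3 * (s ^ 2 + 4 * s + 1) / (1 + s)) / 2 := by
  obtain ⟨s, c, v, b, p, h⟩ := exists_nearOpt hK.compact hK.convex hK.interior_nonempty
  refine ⟨s, c, v, b, p, h, ?_⟩
  by_contra hcon
  push Not at hcon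
  apply hw
  obtain ⟨y, hy0, hy⟩ := Pool.Agent.Helper24.UB.asym_direction K hK.compact hK.convex hK.interior_nonempty
    hK.free c s h.one_le h.centre
  exact ⟨y, hy0, fun x hx x' hx' => (hy x hx x' hx').trans hcon⟩

/-- **Lattice-free bodies of width more than `2 + √2` have asymmetry more than `2.463`.** -/
theorem exists_nearOpt_of_wide {K : Set (Fin 3 → ℝ)} (hK : LFree K) (hw : ¬ WidthLe K (2 + Real.sqrt 2)) :
    ∃ s c v b p, NearOpt K s c v b p ∧ 2463 / 1000 < s := by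
  obtain ⟨s, c, v, b, p, h, h1⟩ := exists_nearOpt_of_width hK hw
  refine ⟨s, c, v, b, p, h, ?_⟩
  by_contra hcon
  push Not at hcon
  have := Pool.Agent.Helper24.UB.value_le s h.one_le hcon
  linarith

end Pool.Agent.Helper36.FX
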