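import Pool.Agent.Helper36.FX.Near

/-!
# MP_be0fb5, full answer: the simplex of the Minkowski asymmetry

At the optimal centre `c` (asymmetry `s`) there is a simplex `L k ≥ 0`, `∑ L k = 1`, around `K` and points `p k` of
`K` with `L k (p k) = (1 + s) * L k c = max L k` on `K`; the points `c - (p k - c) / s` of `K` are on its facets.
-/

set_option autoImplicit false

namespace Pool.Agent.Helper36.FX

open Matrix Pool.Agent.Helper12.LW

/-- the centres for the factor `t` (the inverse of the asymmetry) -/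
def Cen (K : Set (Fin 3 → ℝ)) (t : ℝ) (c : Fin 3 → ℝ) : Prop := ∀ x ∈ K, c - t • (x - c) ∈ K

/-- a centre of a closed convex set is in the set -/
theorem Cen.mem {K : Set (Fin 3 → ℝ)} (hcv : Convex ℝ K) (hne : K.Nonempty) {t : ℝ} (ht : 0 ≤ t) {c : Fin 3 → ℝ}
    (h : Cen K t c) : c ∈ K := by
  obtain ⟨x, hx⟩ := hne
  have h1 : (0 : ℝ) < 1 + t := by linarith
  have h2 := hcv hx (h x hx) (a := t / (1 + t)) (b := 1 / (1 + t)) (by positivity) (by positivity) (by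
    field_simp
    ring)
  have h3 : (t / (1 + t)) • x + (1 / (1 + t)) • (c - t • (x - c)) = c := by
    ext j
    simp only [Pi.add_apply, Pi.smul_apply, Pi.sub_apply, smul_eq_mul]
    field_simp
    ring
  rwa [h3] at h2

/-- monotonicity -/
theorem Cen.mono {K : Set (Fin 3 → ℝ)} (hcv : Convex ℝ K) (hne : K.Nonempty) {t t' : ℝ} (ht' : 0 ≤ t') (htt : t' ≤ t)
    {c : Fin 3 → ℝ} (h : Cen K t c) : Cen K t' c := by
  intro x hx
  rcases eq_or_lt_of_le (ht'.trans htt) with h0 | h0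
  · have : t' = t := le_antisymm htt (h0 ▸ ht')
    rw [this]
    exact h x hx
  · have h1 := hcv (h.mem hcv hne h0.le) (h x hx) (a := 1 - t' / t) (b := t' / t)
      (sub_nonneg.2 ((div_le_one h0).2 htt)) (by positivity) (by ring)
    have h2 : (1 - t' / t) • c + (t' / t) • (c - t • (x - c)) = c - t' • (x - c) := by
      ext j
      simp only [Pi.add_apply, Pi.smul_apply, Pi.sub_apply, smul_eq_mul]
      field_simp
      ring
    rwa [h2] at h1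

/-- the factor is at most one -/
theorem Cen.le_one {K : Set (Fin 3 → ℝ)} (hK : IsCompact K) (hint : (interior K).Nonempty) {t : ℝ}
    {c : Fin 3 → ℝ} (h : Cen K t c) : t ≤ 1 := by
  obtain ⟨x, hx, hmax⟩ := hK.exists_isMaxOn (hint.mono interior_subset) (f := fun x => ‖x - c‖) (by fun_prop)
  have hmax' : ∀ z ∈ K, ‖z - c‖ ≤ ‖x - c‖ := hmax
  have hpos : 0 < ‖x - c‖ := by
    by_contra hcon
    have h1 : ∀ z ∈ K, z = c := by
      intro z hz
      have h2 := hmax' z hz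
      have h3 := norm_nonneg (z - c)
      rw [← sub_eq_zero, ← norm_eq_zero]
      linarith
    have h4 : interior K ⊆ {c} := fun z hz => h1 z (interior_subset hz)
    have h5 : interior K = {c} := (hint.subset_singleton_iff).1 h4
    have h6 : IsOpen ({c} : Set (Fin 3 → ℝ)) := h5 ▸ isOpen_interior
    exact not_isOpen_singleton c h6
  have h7 := hmax' _ (h x hx)
  have h8 : c - t • (x - c) - c = -(t • (x - c)) := by abel
  rw [h8, norm_neg, norm_smul, Real.norm_eq_abs] at h7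
  have h9 := le_abs_self t
  by_contra hcon
  push Not at hcon
  nlinarith

/-- the largest factor is attained -/
theorem exists_factor {K : Set (Fin 3 → ℝ)} (hK : IsCompact K) (hcv : Convex ℝ K) (hint : (interior K).Nonempty) :
    ∃ t c, 0 < t ∧ t ≤ 1 ∧ Cen K t c ∧ ∀ t', t < t' → ¬ ∃ c, Cen K t' c := by
  have hne : K.Nonempty := hint.mono interior_subset
  obtain ⟨A, hA⟩ : ∃ A : Set (ℝ × (Fin 3 → ℝ)), A = (Set.Icc 0 1 ×ˢ K) ∩ {a | Cen K a.1 a.2} := ⟨_, rfl⟩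
  have hcl : IsClosed {a : ℝ × (Fin 3 → ℝ) | Cen K a.1 a.2} := by
    have h1 : {a : ℝ × (Fin 3 → ℝ) | Cen K a.1 a.2} =
        ⋂ x ∈ K, (fun a : ℝ × (Fin 3 → ℝ) => a.2 - a.1 • (x - a.2)) ⁻¹' K := by
      ext a
      simp only [Set.mem_ofPred_eq, Set.mem_iInter, Set.mem_preimage, Cen]
    rw [h1]
    exact isClosed_biInter fun x _ => hK.isClosed.preimage (by fun_prop)
  have hcomp : IsCompact A := by
    rw [hA]
    exact (isCompact_Icc.prod hK).inter_right hcl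
  obtain ⟨a, ha⟩ := hint
  obtain ⟨ρ, hρ, hball⟩ := Metric.isOpen_iff.mp isOpen_interior a ha
  obtain ⟨R, hR⟩ := (Metric.isBounded_iff_subset_closedBall a).mp hK.isBounded
  have hR0 : 0 ≤ R := by
    have := hR (interior_subset ha)
    rw [Metric.mem_closedBall, dist_self] at this
    exact this
  obtain ⟨t0, ht0⟩ : ∃ t0 : ℝ, t0 = min 1 (ρ / (2 * (R + 1))) := ⟨_, rfl⟩
  have ht0p : 0 < t0 := by rw [ht0]; positivity
  have h0 : (t0, a) ∈ A := by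
    rw [hA]
    refine ⟨⟨⟨ht0p.le, by rw [ht0]; exact min_le_left _ _⟩, interior_subset ha⟩, ?_⟩
    intro x hx
    apply interior_subset
    apply hball
    rw [Metric.mem_ball, dist_eq_norm]
    have h8 : a - t0 • (x - a) - a = -(t0 • (x - a)) := by abel
    simp only [h8]
    rw [norm_neg, norm_smul, Real.norm_eq_abs, abs_of_pos ht0p]
    have h9 : ‖x - a‖ ≤ R := by
      have := hR hx
      rwa [Metric.mem_closedBall, dist_eq_norm] at this
    have h10 : t0 ≤ ρ / (2 * (R + 1)) := by rw [ht0]; exact min_le_right _ _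
    calc t0 * ‖x - a‖ ≤ (ρ / (2 * (R + 1))) * R := mul_le_mul h10 h9 (norm_nonneg _) (by positivity)
      _ < ρ := by
        rw [div_mul_eq_mul_div, div_lt_iff₀ (by positivity)]
        nlinarith
  obtain ⟨b, hb, hmax⟩ := hcomp.exists_isMaxOn ⟨_, h0⟩ (f := fun a => a.1) (by fun_prop)
  have hmax' : ∀ z ∈ A, z.1 ≤ b.1 := hmax
  have hb0 : t0 ≤ b.1 := hmax' _ h0
  have hb' := hb
  rw [hA] at hb'
  refine ⟨b.1, b.2, ht0p.trans_le hb0, hb'.1.1.2, hb'.2, ?_⟩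
  rintro t' ht' ⟨c, hc⟩
  have h1 := hc.le_one hK ⟨a, ha⟩
  have h2 : 0 < t' := (ht0p.trans_le hb0).trans ht'
  have h3 := hmax' (t', c) (by
    rw [hA]
    exact ⟨⟨⟨h2.le, h1⟩, hc.mem hcv hne h2.le⟩, hc⟩)
  simp only at h3
  linarith

/-- the simplex of the asymmetry -/
structure NearOpt (K : Set (Fin 3 → ℝ)) (s : ℝ) (c : Fin 3 → ℝ) (v : Fin 4 → Fin 3 → ℝ) (b : Fin 4 → ℝ)
    (p : Fin 4 → Fin 3 → ℝ) : Prop where
  one_le : 1 ≤ s
  sum_v : ∑ k, v k = 0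
  sum_b : ∑ k, b k = 1
  le : ∀ k, ∀ z ∈ K, v k ⬝ᵥ z ≤ b k
  cmem : c ∈ K
  centre : ∀ z ∈ K, c - (1 / s) • (z - c) ∈ K
  mem : ∀ k, p k ∈ K
  val : ∀ k, b k - v k ⬝ᵥ p k = (1 + s) * (b k - v k ⬝ᵥ c)

/-- **The simplex of the asymmetry exists.** -/
theorem exists_nearOpt {K : Set (Fin 3 → ℝ)} (hK : IsCompact K) (hcv : Convex ℝ K) (hint : (interior K).Nonempty) :
    ∃ s c v b p, NearOpt K s c v b p := by
  have hne : K.Nonempty := hint.mono interior_subset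
  obtain ⟨t, c, ht0, ht1, hc, hno⟩ := exists_factor hK hcv hint
  have hcK : c ∈ K := hc.mem hcv hne ht0.le
  -- a bound for the normals
  obtain ⟨a, ha⟩ := hint
  obtain ⟨ρ, hρ, hball⟩ := Metric.isOpen_iff.mp isOpen_interior a ha
  obtain ⟨C, hC⟩ : ∃ C : ℝ, C = 1 / ρ := ⟨_, rfl⟩
  have hC0 : 0 < C := by rw [hC]; positivity
  obtain ⟨Z, hZ⟩ : ∃ Z : Set ((Fin 4 → Fin 3 → ℝ) × (Fin 4 → Fin 3 → ℝ) × (Fin 4 → Fin 3 → ℝ)),
      Z = ((Metric.closedBall 0 C) ×ˢ ((Set.univ.pi fun _ => K) ×ˢ (Set.univ.pi fun _ => K))) ∩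
        {a : (Fin 4 → Fin 3 → ℝ) × (Fin 4 → Fin 3 → ℝ) × (Fin 4 → Fin 3 → ℝ) |
          ∑ k, a.1 k = 0 ∧ ∑ k, a.1 k ⬝ᵥ a.2.2 k = 1 ∧ (∀ k, ∀ z ∈ K, a.1 k ⬝ᵥ z ≤ a.1 k ⬝ᵥ a.2.2 k)} :=
    ⟨_, rfl⟩
  have hcl : IsClosed {a : (Fin 4 → Fin 3 → ℝ) × (Fin 4 → Fin 3 → ℝ) × (Fin 4 → Fin 3 → ℝ) |
      ∑ k, a.1 k = 0 ∧ ∑ k, a.1 k ⬝ᵥ a.2.2 k = 1 ∧ (∀ k, ∀ z ∈ K, a.1 k ⬝ᵥ z ≤ a.1 k ⬝ᵥ a.2.2 k)} := by
    have h1 : IsClosed {a : (Fin 4 → Fin 3 → ℝ) × (Fin 4 → Fin 3 → ℝ) × (Fin 4 → Fin 3 → ℝ) |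
        ∑ k, a.1 k = 0} := isClosed_eq (by fun_prop) continuous_const
    have h2 : IsClosed {a : (Fin 4 → Fin 3 → ℝ) × (Fin 4 → Fin 3 → ℝ) × (Fin 4 → Fin 3 → ℝ) |
        ∑ k, a.1 k ⬝ᵥ a.2.2 k = 1} := isClosed_eq (by fun_prop) continuous_const
    have h3 : IsClosed (⋂ k : Fin 4, ⋂ z ∈ K, {a : (Fin 4 → Fin 3 → ℝ) × (Fin 4 → Fin 3 → ℝ) ×
        (Fin 4 → Fin 3 → ℝ) | a.1 k ⬝ᵥ z ≤ a.1 k ⬝ᵥ a.2.2 k}) :=
      isClosed_iInter fun k => isClosed_biInter fun z _ => isClosed_le (by fun_prop) (by fun_prop)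
    have h4 := h1.inter (h2.inter h3)
    convert h4 using 1
    ext a
    simp only [Set.mem_ofPred_eq, Set.mem_inter_iff, Set.mem_iInter]
  have hcomp : IsCompact Z := by
    rw [hZ]
    exact ((isCompact_closedBall _ _).prod ((isCompact_univ_pi fun _ => hK).prod
      (isCompact_univ_pi fun _ => hK))).inter_right hcl
  -- points of `Z` with a large value
  have hlarge : ∀ σ : ℝ, 0 < σ → σ < 1 / t → ∃ a ∈ Z, 1 + σ < ∑ k, (a.1 k ⬝ᵥ a.2.2 k - a.1 k ⬝ᵥ a.2.1 k) := by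
    intro σ hσ hσt
    have h1 : t < 1 / σ := by
      rw [lt_div_iff₀ ht0] at hσt
      rw [lt_div_iff₀ hσ]
      linarith
    obtain ⟨v, b, x, y, hN⟩ := exists_near hK hcv hne hσ (hno _ h1)
    refine ⟨(v, x, y), ?_, ?_⟩
    · rw [hZ]
      refine ⟨⟨?_, ⟨fun k _ => hN.mem k, fun k _ => hN.memy k⟩⟩, hN.sum_v, ?_, ?_⟩
      · rw [mem_closedBall_zero_iff]
        refine (pi_norm_le_iff_of_nonneg hC0.le).2 fun k => (pi_norm_le_iff_of_nonneg hC0.le).2 fun j => ?_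
        have hmem : ∀ r : ℝ, |r| < ρ → a + Pi.single j r ∈ K := by
          intro r hr
          apply interior_subset
          apply hball
          rw [Metric.mem_ball, dist_eq_norm, add_sub_cancel_left, pi_norm_lt_iff hρ]
          intro i
          rw [Pi.single_apply]
          split_ifs
          · exact hr
          · simpa using hρ
        have h2 := hmem (ρ / 2) (by rw [abs_of_pos (by positivity)]; linarith)
        have h3 := hmem (-(ρ / 2)) (by rw [abs_neg, abs_of_pos (by positivity)]; linarith)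
        have h4 : ∀ r : ℝ, v k ⬝ᵥ (a + Pi.single j r) = v k ⬝ᵥ a + v k j * r := fun r => by
          rw [dotProduct_add, dotProduct_single]
        have h5 := hN.L_le k h2
        have h6 := hN.L_le k h3
        have h7 := hN.le k _ h2
        have h8 := hN.le k _ h3
        rw [h4] at h5 h6 h7 h8
        rw [Real.norm_eq_abs, hC, le_div_iff₀ hρ]
        rcases abs_cases (v k j) with ⟨h9, -⟩ | ⟨h9, -⟩ <;> rw [h9] <;> nlinarith
      · simp only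
        rw [← hN.sum_b]
        exact Finset.sum_congr rfl fun k _ => hN.touch k
      · intro k z hz
        simp only
        rw [hN.touch k]
        exact hN.le k z hz
    · simp only
      have h2 : ∑ k, (v k ⬝ᵥ y k - v k ⬝ᵥ x k) = ∑ k, (b k - v k ⬝ᵥ x k) :=
        Finset.sum_congr rfl fun k _ => by rw [hN.touch k]
      rw [h2]
      exact hN.big
  have ht1' : 0 < 1 / t := by positivity
  obtain ⟨a1, ha1, -⟩ := hlarge (1 / t / 2) (by positivity) (by linarith)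
  obtain ⟨m, hm, hmax⟩ := hcomp.exists_isMaxOn ⟨a1, ha1⟩
    (f := fun a => ∑ k, (a.1 k ⬝ᵥ a.2.2 k - a.1 k ⬝ᵥ a.2.1 k)) (by fun_prop)
  have hmax' : ∀ z ∈ Z, ∑ k, (z.1 k ⬝ᵥ z.2.2 k - z.1 k ⬝ᵥ z.2.1 k) ≤
      ∑ k, (m.1 k ⬝ᵥ m.2.2 k - m.1 k ⬝ᵥ m.2.1 k) := hmax
  have hbig : 1 + 1 / t ≤ ∑ k, (m.1 k ⬝ᵥ m.2.2 k - m.1 k ⬝ᵥ m.2.1 k) := by
    refine le_of_forall_lt_imp_le_of_dense fun r hr => ?_
    rcases le_or_gt r 1 with h1 | h1
    · obtain ⟨a2, ha2, hb2⟩ := hlarge (1 / t / 2) (by positivity) (by linarith)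
      have h3 := hmax' a2 ha2
      linarith
    · obtain ⟨a2, ha2, hb2⟩ := hlarge (r - 1) (by linarith) (by linarith)
      have h3 := hmax' a2 ha2
      linarith
  rw [hZ] at hm
  obtain ⟨⟨-, hx, hy⟩, hv0, hb1, hle⟩ := hm
  obtain ⟨v, x, y⟩ := m
  simp only at hx hy hv0 hb1 hle hbig
  have hxm : ∀ k, x k ∈ K := fun k => hx k (Set.mem_univ k)
  have hup : ∀ k, v k ⬝ᵥ y k - v k ⬝ᵥ x k ≤ (1 + 1 / t) * (v k ⬝ᵥ y k - v k ⬝ᵥ c) := by
    intro k
    have h1 := hle k _ (hc (x k) (hxm k))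
    rw [dotProduct_sub, dotProduct_smul, dotProduct_sub, smul_eq_mul] at h1
    have h2 : (1 + 1 / t) * (v k ⬝ᵥ y k - v k ⬝ᵥ c) - (v k ⬝ᵥ y k - v k ⬝ᵥ x k) =
        (1 / t) * (v k ⬝ᵥ y k - (v k ⬝ᵥ c - t * (v k ⬝ᵥ x k - v k ⬝ᵥ c))) := by
      field_simp
      ring
    have h3 : 0 ≤ (1 / t) * (v k ⬝ᵥ y k - (v k ⬝ᵥ c - t * (v k ⬝ᵥ x k - v k ⬝ᵥ c))) :=
      mul_nonneg ht1'.le (by linarith)
    linarith
  have hsumc : ∑ k, (1 + 1 / t) * (v k ⬝ᵥ y k - v k ⬝ᵥ c) = 1 + 1 / t := by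
    rw [← Finset.mul_sum, Finset.sum_sub_distrib, hb1, ← sum_dotProduct, hv0, zero_dotProduct]
    ring
  have heq : ∀ k, v k ⬝ᵥ y k - v k ⬝ᵥ x k = (1 + 1 / t) * (v k ⬝ᵥ y k - v k ⬝ᵥ c) := by
    have h1 : ∑ k, ((1 + 1 / t) * (v k ⬝ᵥ y k - v k ⬝ᵥ c) - (v k ⬝ᵥ y k - v k ⬝ᵥ x k)) = 0 := by
      refine le_antisymm ?_ (Finset.sum_nonneg fun k _ => sub_nonneg.2 (hup k))
      rw [Finset.sum_sub_distrib, hsumc]
      linarith
    intro k
    have h2 := (Finset.sum_eq_zero_iff_of_nonneg fun k _ => sub_nonneg.2 (hup k)).1 h1 k (Finset.mem_univ k)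
    linarith
  refine ⟨1 / t, c, v, fun k => v k ⬝ᵥ y k, x, ?_, hv0, hb1, hle, hcK, ?_, hxm, heq⟩
  · rw [le_div_iff₀ ht0]
    linarith
  · intro z hz
    rw [one_div_one_div]
    exact hc z hz

end Pool.Agent.Helper36.FX
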