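import Pool.Agent.Helper36.FX.Pat
import Pool.Agent.Helper24.UB.Last

/-!
# MP_be0fb5, full answer: the averaging lemma

A lattice-free body of lattice width more than `c` has a superbase `f`, a chain of `f` and a tetrahedron of
separators `v` such that the averaged functional of the form `∑ (v k)(v k)ᵀ` is at most `6 / c²`.
-/

set_option autoImplicit false

namespace Pool.Agent.Helper36.FX

open Matrix Pool.Agent.Helper12.LW Pool.Agent.Helper73.FX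
open Pool.Agent.Helper1.FX (gram gram_apply gram_symm qf_gram toR_same)
open Pool.Agent.Helper84.FL (Superbase)
open Pool.Agent.Helper24.UB (Equi pa pb rt)
open Pool.Agent.Helper22.Sym (Superb)

/-! ## the norm of an integer vector of the dual lattice -/

theorem four_aux {ε D s r A B W : ℝ} (hε : 0 ≤ ε) (hW0 : 0 ≤ W) (hA : 0 ≤ A) (hB : 0 ≤ B)
    (h1 : W ≤ ε * s + r) (h2 : s ^ 2 ≤ B * D ^ 2) (h3 : r ^ 2 ≤ 2 * A) :
    W ^ 2 ≤ (2 + ε * D ^ 2) * (ε * B + A) := by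
  have h4 : (2 * (s * r)) ^ 2 ≤ (2 * B + D ^ 2 * A) ^ 2 := by
    have h5 : s ^ 2 * r ^ 2 ≤ (B * D ^ 2) * (2 * A) :=
      mul_le_mul h2 h3 (sq_nonneg _) (by positivity)
    nlinarith [sq_nonneg (2 * B - D ^ 2 * A)]
  have h6 : 2 * (s * r) ≤ 2 * B + D ^ 2 * A := abs_le_of_sq_le_sq' h4 (by positivity) |>.2
  have h7 : W ^ 2 ≤ (ε * s + r) ^ 2 := pow_le_pow_left₀ hW0 h1 2
  nlinarith [mul_le_mul_of_nonneg_left h6 hε, mul_le_mul_of_nonneg_left h2 (mul_nonneg hε hε)]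

variable {K : Set (Fin 3 → ℝ)} {ε D W : ℝ} {ι : Type} [Fintype ι]

theorem kappa_bound (hε : 0 ≤ ε) (hKD : ∀ x ∈ K, ∀ x' ∈ K, (x - x') ⬝ᵥ (x - x') ≤ D ^ 2) (e : Equi K ε ι)
    (u : Fin 3 → ℝ) (hW0 : 0 ≤ W) (hW : ∃ x ∈ K, ∃ x' ∈ K, W < u ⬝ᵥ (x - x')) :
    W ^ 2 ≤ (2 + ε * D ^ 2) * (u ⬝ᵥ e.Q⁻¹ *ᵥ u) := by
  have hmax : ∀ i, ∃ k0, ∀ k, e.v i k ⬝ᵥ e.Q⁻¹ *ᵥ u ≤ e.v i k0 ⬝ᵥ e.Q⁻¹ *ᵥ u := fun i =>
    Finite.exists_max fun k => e.v i k ⬝ᵥ e.Q⁻¹ *ᵥ u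
  have hmin : ∀ i, ∃ k0, ∀ k, e.v i k0 ⬝ᵥ e.Q⁻¹ *ᵥ u ≤ e.v i k ⬝ᵥ e.Q⁻¹ *ᵥ u := fun i =>
    Finite.exists_min fun k => e.v i k ⬝ᵥ e.Q⁻¹ *ᵥ u
  choose kp hkp using hmax
  choose km hkm using hmin
  obtain ⟨x, hx, x', hx', hlt⟩ := hW
  have h1 := Pool.Agent.Helper92.UB.width_le e u kp km hkp hkm x x' hx hx'
  have h2 := Pool.Agent.Helper92.UB.kappa_eq e u
  rw [h2]
  refine four_aux hε hW0 ?_ ?_ (hlt.le.trans h1) ?_ ?_
  · exact Finset.sum_nonneg fun i _ => mul_nonneg (e.ypos i).le (Finset.sum_nonneg fun k _ => sq_nonneg _)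
  · exact Finset.sum_nonneg fun k _ => mul_self_nonneg _
  · have h3 : ((e.Q⁻¹ *ᵥ u) ⬝ᵥ (x - x')) ^ 2 ≤
        ((e.Q⁻¹ *ᵥ u) ⬝ᵥ (e.Q⁻¹ *ᵥ u)) * ((x - x') ⬝ᵥ (x - x')) := by
      simp only [dotProduct]
      have h4 := Finset.sum_mul_sq_le_sq_mul_sq Finset.univ (e.Q⁻¹ *ᵥ u) (x - x')
      simpa only [sq] using h4
    refine h3.trans (mul_le_mul_of_nonneg_left (hKD x hx x' hx') ?_)
    exact Finset.sum_nonneg fun k _ => mul_self_nonneg _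
  · have h5 : ∀ i, (e.v i (kp i) ⬝ᵥ e.Q⁻¹ *ᵥ u - e.v i (km i) ⬝ᵥ e.Q⁻¹ *ᵥ u) ^ 2 ≤
        2 * ∑ k, (e.v i k ⬝ᵥ e.Q⁻¹ *ᵥ u) ^ 2 := by
      intro i
      by_cases hk : kp i = km i
      · rw [hk, sub_self]
        have : 0 ≤ ∑ k, (e.v i k ⬝ᵥ e.Q⁻¹ *ᵥ u) ^ 2 := Finset.sum_nonneg fun k _ => sq_nonneg _
        nlinarith
      · have h6 : (e.v i (kp i) ⬝ᵥ e.Q⁻¹ *ᵥ u) ^ 2 + (e.v i (km i) ⬝ᵥ e.Q⁻¹ *ᵥ u) ^ 2 ≤
            ∑ k, (e.v i k ⬝ᵥ e.Q⁻¹ *ᵥ u) ^ 2 := by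
          rw [← Finset.sum_pair hk (f := fun k => (e.v i k ⬝ᵥ e.Q⁻¹ *ᵥ u) ^ 2)]
          exact Finset.sum_le_sum_of_subset_of_nonneg (Finset.subset_univ _) fun k _ _ => sq_nonneg _
        nlinarith [sq_nonneg (e.v i (kp i) ⬝ᵥ e.Q⁻¹ *ᵥ u + e.v i (km i) ⬝ᵥ e.Q⁻¹ *ᵥ u)]
    have h7 : (∑ i, e.y i * (e.v i (kp i) ⬝ᵥ e.Q⁻¹ *ᵥ u - e.v i (km i) ⬝ᵥ e.Q⁻¹ *ᵥ u)) ^ 2 ≤
        ∑ i, e.y i * (e.v i (kp i) ⬝ᵥ e.Q⁻¹ *ᵥ u - e.v i (km i) ⬝ᵥ e.Q⁻¹ *ᵥ u) ^ 2 :=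
      Real.pow_arith_mean_le_arith_mean_pow_of_even Finset.univ e.y _ (fun i _ => (e.ypos i).le) e.ysum even_two
    refine h7.trans ?_
    rw [Finset.mul_sum]
    refine Finset.sum_le_sum fun i _ => ?_
    have h8 := mul_le_mul_of_nonneg_left (h5 i) (e.ypos i).le
    linarith

/-! ## the length of an obtuse superbase -/

theorem PP_bound (hε : 0 ≤ ε) (hKD : ∀ x ∈ K, ∀ x' ∈ K, (x - x') ⬝ᵥ (x - x') ≤ D ^ 2) (e : Equi K ε ι)
    (i0 : ι) (hW0 : 0 ≤ W) (hW : ∀ r : Fin 3 → ℤ, r ≠ 0 → ∃ x ∈ K, ∃ x' ∈ K, W < toR r ⬝ᵥ (x - x')) :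
    PP e.Q (e.f i0) * W ^ 2 ≤ 3 * (2 + ε * D ^ 2) := by
  have hsymm := symm_of_posDef e.hpd
  have hP : PP e.Q (e.f i0) = ∑ s : Fin 6, -Pool.Agent.Helper22.Sym.bil e.Q (e.f i0 (pa s)) (e.f i0 (pb s)) := by
    rw [PP_self hsymm (e.hsb i0).1]
    simp only [Fin.sum_univ_six, pa, pb]
    simp only [Matrix.cons_val_zero, Matrix.cons_val_one, Matrix.cons_val]
    rfl
  have hp := Pool.Agent.Helper92.UB.kappa_sum e.Q e.hpd
    (fun s => -Pool.Agent.Helper22.Sym.bil e.Q (e.f i0 (pa s)) (e.f i0 (pb s))) (rt (e.g i0))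
    (Pool.Agent.Helper18.UBd.expand e.Q e.hpd (e.f i0) (e.g i0) (e.hsb i0))
  rw [hP, Finset.sum_mul, ← hp, Finset.sum_mul]
  refine Finset.sum_le_sum fun s _ => ?_
  have h1 : 0 ≤ -Pool.Agent.Helper22.Sym.bil e.Q (e.f i0 (pa s)) (e.f i0 (pb s)) := by
    have := e.hob i0 (pa s) (pb s) (Pool.Agent.Helper18.UBd.pa_ne_pb s)
    linarith
  have h2 := kappa_bound hε hKD e (toR (rt (e.g i0) s)) hW0
    (hW _ (Pool.Agent.Helper18.UBd.rt_ne (e.hsb i0) s))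
  have h3 := mul_le_mul_of_nonneg_left h2 h1
  refine h3.trans (le_of_eq ?_)
  rw [toR_same]
  ring

/-! ## linearity -/

/-- the coefficients of the six combinations -/
noncomputable def wt : Fin 6 → Fin 4 → ℝ :=
  ![![0, 0, 0, 0], ![1 / 2, 0, 0, 0], ![1 / 3, 0, 0, 1 / 3], ![1, 1, 0, 0], ![1, 1, 1, 0], ![1, 0, 2, 1]]

theorem et_eq (k : Fin 6) (p : Fin 4 → Fin 4 → ℝ) :
    et k p = wt k 0 * p 0 1 + wt k 1 * p 0 2 + wt k 2 * p 1 2 + wt k 3 * p 2 3 := by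
  fin_cases k <;> simp [et, wt] <;> ring

theorem et_lin (k : Fin 6) (p a : Fin 4 → Fin 4 → ℝ) (y : ι → ℝ) (b : ι → Fin 4 → Fin 4 → ℝ)
    (h : ∀ l m, p l m = ε * a l m + ∑ i, y i * b i l m) : et k p = ε * et k a + ∑ i, y i * et k (b i) := by
  simp only [et_eq, h, mul_add, Finset.sum_add_distrib, Finset.mul_sum]
  have hc : ∀ (c : ℝ) (l m : Fin 4), ∑ i, c * (y i * b i l m) = ∑ i, y i * (c * b i l m) := fun c l m =>
    Finset.sum_congr rfl fun i _ => by ring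
  simp only [hc]
  ring

theorem sp_lin (e : Equi K ε ι) (f : Fin 4 → Fin 3 → ℤ) (l m : Fin 4) :
    sp e.Q f l m = ε * sp 1 f l m + ∑ i, e.y i * sp (gram (e.v i)) f l m := by
  have h1 : ∀ (v : Fin 4 → Fin 3 → ℝ) (x w : Fin 3 → ℝ),
      x ⬝ᵥ gram v *ᵥ w = ∑ k, (v k ⬝ᵥ x) * (v k ⬝ᵥ w) := by
    intro v x w
    simp only [dotProduct, mulVec, gram_apply, Fin.sum_univ_three, Fin.sum_univ_four]
    ring
  simp only [sp, h1, e.hQ, one_mulVec, mul_neg, Finset.sum_neg_distrib]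
  ring

theorem PP_lin (e : Equi K ε ι) (f : Fin 4 → Fin 3 → ℤ) :
    PP e.Q f = ε * PP 1 f + ∑ i, e.y i * PP (gram (e.v i)) f := by
  have h1 : ∀ x : Fin 3 → ℝ, qf e.Q x = ε * qf 1 x + ∑ i, e.y i * qf (gram (e.v i)) x := by
    intro x
    have h := e.hQ x x
    simp only [qf_gram]
    simp only [qf, one_mulVec]
    rw [h]
    simp only [sq]
  simp only [PP, h1, Finset.sum_add_distrib, ← Finset.mul_sum]
  rw [Finset.sum_comm]
  simp only [← Finset.mul_sum]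
  rw [add_div, Finset.sum_div]
  congr 1
  · ring
  · exact Finset.sum_congr rfl fun i _ => by ring

theorem Phi_lin (e : Equi K ε ι) (i0 : ι) (hf : Superbase (e.f i0)) :
    ∑ i, e.y i * Phi e.Q (gram (e.v i)) + ε * Phi e.Q 1 = PP e.Q (e.f i0) := by
  have hob : ∀ l m, l ≠ m → 0 ≤ sp e.Q (e.f i0) l m := by
    intro l m hlm
    have h := e.hob i0 l m hlm
    have h2 : sp e.Q (e.f i0) l m = -Pool.Agent.Helper22.Sym.bil e.Q (e.f i0 l) (e.f i0 m) := rfl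
    linarith
  obtain ⟨k, τ, -, h⟩ := Phi_formula e.hpd hf hob
  have hg : ∀ i, (gram (e.v i)).IsSymm := fun i => by
    ext a b
    exact gram_symm (e.v i) b a
  rw [← Phi_self e.hpd hf hob, h e.Q (symm_of_posDef e.hpd), h 1 Matrix.isSymm_one,
    et_lin k _ (sp 1 fun i => e.f i0 (τ i)) e.y (fun i => sp (gram (e.v i)) fun j => e.f i0 (τ j))
      (sp_lin e _), PP_lin e]
  have h2 : ∀ i, e.y i * Phi e.Q (gram (e.v i)) = e.y i * PP (gram (e.v i)) (e.f i0) +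
      e.y i * et k (sp (gram (e.v i)) fun j => e.f i0 (τ j)) := fun i => by
    rw [h _ (hg i)]
    ring
  simp only [h2, Finset.sum_add_distrib]
  ring

/-- the real superbase relation and the integer one -/
theorem superbase_of_superb {f g : Fin 4 → Fin 3 → ℤ} (h : Superb f g) : Superbase f := by
  refine ⟨h.1, fun z => ⟨fun l => g l ⬝ᵥ z, ?_⟩⟩
  have h1 := Pool.Agent.Helper22.Sym.repr_vec f g h (toR z)
  funext i
  have h2 := congrFun h1 i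
  simp only [Finset.sum_apply, Pi.smul_apply, smul_eq_mul] at h2 ⊢
  have h3 : ∀ l, Pool.Agent.Helper22.Sym.toR (g l) ⬝ᵥ toR z = ((g l ⬝ᵥ z : ℤ) : ℝ) := fun l => by
    simp [Pool.Agent.Helper22.Sym.toR, toR, dotProduct]
  simp only [h3] at h2
  have h4 : ((∑ l, (g l ⬝ᵥ z) * f l i : ℤ) : ℝ) = (z i : ℝ) := by
    push_cast
    exact h2
  exact_mod_cast h4.symm

/-- one member of the equilibrium satisfies the averaged inequality -/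
theorem exists_member [Nonempty ι] (hε : 0 ≤ ε)
    (hKD : ∀ x ∈ K, ∀ x' ∈ K, (x - x') ⬝ᵥ (x - x') ≤ D ^ 2) (e : Equi K ε ι)
    (hW0 : 0 ≤ W) (hW : ∀ r : Fin 3 → ℤ, r ≠ 0 → ∃ x ∈ K, ∃ x' ∈ K, W < toR r ⬝ᵥ (x - x')) :
    ∃ i, Phi e.Q (gram (e.v i)) * W ^ 2 ≤ 3 * (2 + ε * D ^ 2) := by
  obtain ⟨i0⟩ := (inferInstance : Nonempty ι)
  have h1 := Phi_lin e i0 (superbase_of_superb (e.hsb i0))
  have h2 : 0 ≤ Phi e.Q 1 := Phi_nonneg fun v => by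
    simp only [qf, one_mulVec]
    exact Finset.sum_nonneg fun k _ => mul_self_nonneg _
  have h3 := PP_bound hε hKD e i0 hW0 hW
  by_contra hcon
  push Not at hcon
  have h4 : ∑ i, e.y i * (3 * (2 + ε * D ^ 2)) < ∑ i, e.y i * (Phi e.Q (gram (e.v i)) * W ^ 2) :=
    Finset.sum_lt_sum_of_nonempty ⟨i0, Finset.mem_univ _⟩ fun i _ =>
      mul_lt_mul_of_pos_left (hcon i) (e.ypos i)
  rw [← Finset.sum_mul, e.ysum, one_mul] at h4
  have h5 : ∑ i, e.y i * (Phi e.Q (gram (e.v i)) * W ^ 2) =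
      (∑ i, e.y i * Phi e.Q (gram (e.v i))) * W ^ 2 := by
    rw [Finset.sum_mul]
    exact Finset.sum_congr rfl fun i _ => by ring
  rw [h5] at h4
  have h6 : (∑ i, e.y i * Phi e.Q (gram (e.v i))) * W ^ 2 ≤ PP e.Q (e.f i0) * W ^ 2 := by
    refine mul_le_mul_of_nonneg_right ?_ (sq_nonneg _)
    nlinarith [mul_nonneg hε h2]
  linarith

/-! ## the averaging lemma -/

/-- **Averaging lemma.** A lattice-free body of lattice width more than `c` has a superbase `f` (with potentials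
`g`), a chain of `f` and a tetrahedron `v` of separators of this chain such that, for one of the six patterns
`k` and one order `τ` of the superbase, the half length of `f` plus the combination `et k` of the Selling
parameters is at most `6 / c²` for the form `∑ (v j)(v j)ᵀ`. -/
theorem averaging (hK : LFree K) {c : ℝ} (hc : 0 < c)
    (h : ∀ r : Fin 3 → ℤ, r ≠ 0 → ∃ x ∈ K, ∃ x' ∈ K, c < toR r ⬝ᵥ (x - x')) :
    ∃ (f g : Fin 4 → Fin 3 → ℤ) (z : Fin 3 → ℤ) (σ : Equiv.Perm (Fin 3)) (v : Fin 4 → Fin 3 → ℝ)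
      (k : Fin 6) (τ : Equiv.Perm (Fin 4)),
      Superb f g ∧ Superbase f ∧ Sep4 K (chainP f z σ) v ∧
      (PP (gram v) f + et k (sp (gram v) fun i => f (τ i))) * c ^ 2 ≤ 6 := by
  obtain ⟨W, hcW, hW⟩ := Pool.Agent.Helper24.UB.width_gap K hK.interior_nonempty c (by rw [toR_same]; exact h)
  rw [toR_same] at hW
  obtain ⟨R, hR⟩ := hK.compact.isBounded.subset_closedBall 0
  have hKD : ∀ x ∈ K, ∀ x' ∈ K, (x - x') ⬝ᵥ (x - x') ≤ (4 * |R| + 1) ^ 2 := by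
    intro x hx x' hx'
    have h1 := hR hx
    have h2 := hR hx'
    rw [mem_closedBall_zero_iff] at h1 h2
    have h3 : ∀ j, ((x - x') j) ^ 2 ≤ (2 * |R|) ^ 2 := by
      intro j
      have h4 := (norm_le_pi_norm x j).trans h1
      have h5 := (norm_le_pi_norm x' j).trans h2
      rw [Real.norm_eq_abs] at h4 h5
      have h6 := le_abs_self R
      refine sq_le_sq' ?_ ?_ <;> simp only [Pi.sub_apply] <;>
        linarith [abs_le.1 h4, abs_le.1 h5]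
    have h7 : (x - x') ⬝ᵥ (x - x') = ∑ j, ((x - x') j) ^ 2 := by simp only [dotProduct, sq]
    rw [h7]
    refine (Finset.sum_le_sum fun j _ => h3 j).trans ?_
    simp only [Finset.sum_const, Finset.card_univ, Fintype.card_fin, nsmul_eq_mul, Nat.cast_ofNat]
    nlinarith [abs_nonneg R]
  obtain ⟨D, hD⟩ : ∃ D : ℝ, D = 4 * |R| + 1 := ⟨_, rfl⟩
  rw [← hD] at hKD
  have hD0 : 0 < D := by rw [hD]; positivity
  obtain ⟨ε, hεd⟩ : ∃ ε : ℝ, ε = 2 * (W ^ 2 - c ^ 2) / (c ^ 2 * D ^ 2) := ⟨_, rfl⟩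
  have hWc : 0 < W ^ 2 - c ^ 2 := by nlinarith
  have hε : 0 < ε := by rw [hεd]; positivity
  have hεe : 3 * (2 + ε * D ^ 2) * c ^ 2 = 6 * W ^ 2 := by
    rw [hεd]
    field_simp
    ring
  obtain ⟨ι, _, _, ⟨e⟩⟩ := Pool.Agent.Helper1.FX.exists_equi K hK ε hε
  obtain ⟨i, hi⟩ := exists_member hε.le hKD e (hc.le.trans hcW.le) hW
  have hf := superbase_of_superb (e.hsb i)
  have hob : ∀ l m, l ≠ m → 0 ≤ sp e.Q (e.f i) l m := by
    intro l m hlm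
    have h := e.hob i l m hlm
    have h2 : sp e.Q (e.f i) l m = -Pool.Agent.Helper22.Sym.bil e.Q (e.f i l) (e.f i m) := rfl
    linarith
  obtain ⟨k, τ, -, h1⟩ := Phi_formula e.hpd hf hob
  refine ⟨e.f i, e.g i, e.z i, e.σ i, e.v i, k, τ, e.hsb i, hf, ⟨e.hv0 i, e.hv1 i, e.hsep i⟩, ?_⟩
  rw [← h1 (gram (e.v i)) (by ext a b; exact gram_symm (e.v i) b a)]
  have h2 : (Phi e.Q (gram (e.v i)) * c ^ 2) * W ^ 2 ≤ 6 * W ^ 2 := by
    have h3 := mul_le_mul_of_nonneg_right hi (sq_nonneg c)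
    rw [hεe] at h3
    linarith
  exact le_of_mul_le_mul_right h2 (by nlinarith)

end Pool.Agent.Helper36.FX
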