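import Pool.Agent.Helper36.FX.Avg

/-!
# MP_be0fb5, full answer: the dual averaging inequality

For an equilibrium, weights `m j ≥ 0` of dual vectors `r j` and a matrix `P`, one member of the mixture satisfies
`W ∑ m j - tr (P Q) ≤ ∑ m j w (r j) - tr (P gram (v i))` up to an error which tends to zero with `ε`.
-/

set_option autoImplicit false

namespace Pool.Agent.Helper36.FX

open Matrix Pool.Agent.Helper12.LW Pool.Agent.Helper73.FX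
open Pool.Agent.Helper1.FX (gram gram_apply gram_symm qf_gram toR_same)
open Pool.Agent.Helper84.FL (Superbase)
open Pool.Agent.Helper24.UB (Equi pa pb rt)
open Pool.Agent.Helper22.Sym (Superb)

variable {K : Set (Fin 3 → ℝ)} {ε δ D W : ℝ} {ι : Type} [Fintype ι]

/-- the form as a matrix -/
theorem Q_eq (e : Equi K ε ι) : e.Q = ε • (1 : Matrix (Fin 3) (Fin 3) ℝ) + ∑ i, e.y i • gram (e.v i) := by
  ext a b
  have h := e.hQ (Pi.single a 1) (Pi.single b 1)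
  rw [mulVec_single_one, single_dotProduct, one_mul, single_dotProduct, one_mul] at h
  have h1 : e.Q.col b a = e.Q a b := rfl
  rw [h1] at h
  rw [h]
  simp only [Matrix.add_apply, Matrix.smul_apply, Matrix.one_apply, smul_eq_mul, Matrix.sum_apply, gram_apply,
    dotProduct_single, mul_one, Pi.single_apply]

/-- the trace against a matrix -/
theorem trace_eq (e : Equi K ε ι) (P : Matrix (Fin 3) (Fin 3) ℝ) :
    (P * e.Q).trace = ε * P.trace + ∑ i, e.y i * (P * gram (e.v i)).trace := by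
  rw [Q_eq e, mul_add, Matrix.trace_add, Finset.mul_sum, Matrix.trace_sum, mul_smul_comm, mul_one,
    Matrix.trace_smul, smul_eq_mul]
  congr 1
  refine Finset.sum_congr rfl fun i _ => ?_
  rw [mul_smul_comm, Matrix.trace_smul, smul_eq_mul]

/-- the error term -/
theorem err_le (hδ : 0 < δ) (hε : ε = δ ^ 2) (hD : 0 ≤ D)
    (e : Equi K ε ι) (u d : Fin 3 → ℝ) (hd : d ⬝ᵥ d ≤ D ^ 2) :
    ε * ((e.Q⁻¹ *ᵥ u) ⬝ᵥ d) ≤ δ * D / 2 * (1 + u ⬝ᵥ e.Q⁻¹ *ᵥ u) := by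
  have h1 := Pool.Agent.Helper92.UB.kappa_eq e u
  obtain ⟨w, hw⟩ : ∃ w : Fin 3 → ℝ, w = e.Q⁻¹ *ᵥ u := ⟨_, rfl⟩
  have h2 : 0 ≤ ∑ i, e.y i * ∑ k, (e.v i k ⬝ᵥ e.Q⁻¹ *ᵥ u) ^ 2 :=
    Finset.sum_nonneg fun i _ => mul_nonneg (e.ypos i).le (Finset.sum_nonneg fun k _ => sq_nonneg _)
  have h3 : ε * (w ⬝ᵥ w) ≤ u ⬝ᵥ e.Q⁻¹ *ᵥ u := by
    rw [h1, hw]
    linarith
  have hww : 0 ≤ w ⬝ᵥ w := Finset.sum_nonneg fun k _ => mul_self_nonneg _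
  have h4 : (w ⬝ᵥ d) ^ 2 ≤ (w ⬝ᵥ w) * D ^ 2 := by
    have h5 := Finset.sum_mul_sq_le_sq_mul_sq Finset.univ w d
    have h6 : (w ⬝ᵥ d) ^ 2 ≤ (w ⬝ᵥ w) * (d ⬝ᵥ d) := by
      simp only [dotProduct]
      simpa only [sq] using h5
    exact h6.trans (mul_le_mul_of_nonneg_left hd hww)
  rw [← hw] at h3 ⊢
  obtain ⟨κ, hκ⟩ : ∃ κ : ℝ, κ = u ⬝ᵥ w := ⟨_, rfl⟩
  rw [← hκ] at h3 ⊢
  have hκ0 : 0 ≤ κ := (mul_nonneg (by rw [hε]; positivity) hww).trans h3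
  rw [hε] at h3 ⊢
  have h7 : (δ ^ 2 * (w ⬝ᵥ d)) ^ 2 ≤ (δ * D / 2 * (1 + κ)) ^ 2 := by
    have h8 : (δ ^ 2 * (w ⬝ᵥ d)) ^ 2 ≤ (δ * D) ^ 2 * κ := by
      have h9 := mul_le_mul_of_nonneg_left h4 (by positivity : 0 ≤ δ ^ 4)
      have h10 := mul_le_mul_of_nonneg_left h3 (by positivity : 0 ≤ δ ^ 2 * D ^ 2)
      nlinarith
    have h11 : (δ * D) ^ 2 * κ ≤ (δ * D / 2 * (1 + κ)) ^ 2 := by
      have h12 : 0 ≤ (δ * D) ^ 2 * (1 - κ) ^ 2 := by positivity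
      nlinarith
    exact h8.trans h11
  exact (abs_le_of_sq_le_sq' h7 (by positivity)).2

/-- **The dual averaging inequality.** -/
theorem dual [Nonempty ι] {J : Type} [Fintype J] (hδ : 0 < δ) (hε : ε = δ ^ 2) (hD : 0 ≤ D)
    (hKD : ∀ x ∈ K, ∀ x' ∈ K, (x - x') ⬝ᵥ (x - x') ≤ D ^ 2) (e : Equi K ε ι)
    (m : J → ℝ) (hm : ∀ j, 0 ≤ m j) (r : J → Fin 3 → ℝ) (R : ι → J → ℝ)
    (hR : ∀ i j, ∀ x ∈ K, ∀ x' ∈ K,
      ∑ k, (e.v i k ⬝ᵥ e.Q⁻¹ *ᵥ r j) * (e.v i k ⬝ᵥ (x - x')) ≤ R i j)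
    (hW : ∀ j, ∃ x ∈ K, ∃ x' ∈ K, W ≤ r j ⬝ᵥ (x - x')) (P : Matrix (Fin 3) (Fin 3) ℝ) :
    ∃ i, W * ∑ j, m j - (P * e.Q).trace + ε * P.trace ≤
      ∑ j, m j * R i j - (P * gram (e.v i)).trace +
        δ * D / 2 * ∑ j, m j * (1 + r j ⬝ᵥ e.Q⁻¹ *ᵥ r j) := by
  obtain ⟨i0⟩ := (inferInstance : Nonempty ι)
  by_contra hcon
  push Not at hcon
  have h1 : ∑ i, e.y i * (∑ j, m j * R i j - (P * gram (e.v i)).trace +
        δ * D / 2 * ∑ j, m j * (1 + r j ⬝ᵥ e.Q⁻¹ *ᵥ r j)) <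
      ∑ i, e.y i * (W * ∑ j, m j - (P * e.Q).trace + ε * P.trace) :=
    Finset.sum_lt_sum_of_nonempty ⟨i0, Finset.mem_univ _⟩ fun i _ =>
      mul_lt_mul_of_pos_left (hcon i) (e.ypos i)
  rw [← Finset.sum_mul, e.ysum, one_mul] at h1
  have h2 : ∀ E : ℝ, ∑ i, e.y i * (∑ j, m j * R i j - (P * gram (e.v i)).trace + E) =
      ∑ j, m j * (∑ i, e.y i * R i j) - ∑ i, e.y i * (P * gram (e.v i)).trace + E := by
    intro E
    simp only [mul_add, mul_sub, Finset.sum_add_distrib, Finset.sum_sub_distrib]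
    rw [← Finset.sum_mul, e.ysum, one_mul]
    congr 2
    simp only [Finset.mul_sum]
    rw [Finset.sum_comm]
    exact Finset.sum_congr rfl fun j _ => Finset.sum_congr rfl fun i _ => by ring
  rw [h2, trace_eq e P] at h1
  have h3 : ∀ j, W ≤ δ * D / 2 * (1 + r j ⬝ᵥ e.Q⁻¹ *ᵥ r j) + ∑ i, e.y i * R i j := by
    intro j
    obtain ⟨x, hx, x', hx', hw⟩ := hW j
    have h4 := Pool.Agent.Helper92.UB.w_spec e (r j) (x - x')
    rw [e.hQ] at h4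
    have h5 := err_le hδ hε hD e (r j) (x - x') (hKD x hx x' hx')
    have h6 : ∑ i, e.y i * ∑ k, (e.v i k ⬝ᵥ e.Q⁻¹ *ᵥ r j) * (e.v i k ⬝ᵥ (x - x')) ≤ ∑ i, e.y i * R i j :=
      Finset.sum_le_sum fun i _ => mul_le_mul_of_nonneg_left (hR i j x hx x' hx') (e.ypos i).le
    linarith
  have h7 : W * ∑ j, m j ≤ ∑ j, m j * (δ * D / 2 * (1 + r j ⬝ᵥ e.Q⁻¹ *ᵥ r j) + ∑ i, e.y i * R i j) := by
    rw [Finset.mul_sum]
    refine Finset.sum_le_sum fun j _ => ?_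
    rw [mul_comm W]
    exact mul_le_mul_of_nonneg_left (h3 j) (hm j)
  have h8 : ∑ j, m j * (δ * D / 2 * (1 + r j ⬝ᵥ e.Q⁻¹ *ᵥ r j) + ∑ i, e.y i * R i j) =
      δ * D / 2 * ∑ j, m j * (1 + r j ⬝ᵥ e.Q⁻¹ *ᵥ r j) + ∑ j, m j * ∑ i, e.y i * R i j := by
    rw [Finset.mul_sum, ← Finset.sum_add_distrib]
    exact Finset.sum_congr rfl fun j _ => by ring
  linarith

end Pool.Agent.Helper36.FX
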