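import Mathlib
import Pool.Agent.Helper12.LW.Defs

/-!
# MP_be0fb5, full answer: bodies of large Minkowski asymmetry are close to a simplex

If the compact convex body `K` has no point `c` with `c - (x - c) / s ∈ K` for all `x ∈ K`, then there is a simplex
`L k ≥ 0`, `∑ L k = 1`, around `K` and points `x k` of `K` with `∑ L k (x k) > 1 + s`.
-/

set_option autoImplicit false

namespace Pool.Agent.Helper36.FX

open Matrix Pool.Agent.Helper12.LW

/-- the points `c` which are admissible for `x` -/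
def Cs (K : Set (Fin 3 → ℝ)) (s : ℝ) (x : Fin 3 → ℝ) : Set (Fin 3 → ℝ) :=
  (fun y => (s / (1 + s)) • y + (1 / (1 + s)) • x) '' K

theorem Cs_compact {K : Set (Fin 3 → ℝ)} (hK : IsCompact K) (s : ℝ) (x : Fin 3 → ℝ) : IsCompact (Cs K s x) :=
  hK.image (by fun_prop)

theorem Cs_convex {K : Set (Fin 3 → ℝ)} (hK : Convex ℝ K) (s : ℝ) (x : Fin 3 → ℝ) : Convex ℝ (Cs K s x) := by
  rintro - ⟨y, hy, rfl⟩ - ⟨y', hy', rfl⟩ α β hα hβ hαβ
  refine ⟨α • y + β • y', hK hy hy' hα hβ hαβ, ?_⟩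
  have h1 : β = 1 - α := by linarith
  subst h1
  ext j
  simp only [Pi.add_apply, Pi.smul_apply, smul_eq_mul]
  ring

/-- Helly's theorem: four points of `K` such that no `c` is admissible for all of them -/
theorem exists_four {K : Set (Fin 3 → ℝ)} (hK : IsCompact K) (hcv : Convex ℝ K) {s : ℝ} (hs : 0 < s)
    (h : ¬ ∃ c : Fin 3 → ℝ, ∀ x ∈ K, c - (1 / s) • (x - c) ∈ K) :
    ∃ x : Fin 4 → Fin 3 → ℝ, (∀ k, x k ∈ K) ∧ ¬ ∃ c, ∀ k, c ∈ Cs K s (x k) := by
  classical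
  by_contra hcon
  push Not at hcon
  apply h
  have h1 : (⋂ x : K, Cs K s x.1).Nonempty := by
    refine Convex.helly_theorem_compact' (𝕜 := ℝ) (fun x => Cs_convex hcv s _) (fun x => Cs_compact hK s _) ?_
    intro I hI
    rw [Module.finrank_fintype_fun_eq_card, Fintype.card_fin] at hI
    rcases I.eq_empty_or_nonempty with rfl | hIne
    · exact ⟨0, by simp⟩
    · obtain ⟨i0, hi0⟩ := hIne
      have hcard : Fintype.card I ≤ Fintype.card (Fin 4) := by
        rw [Fintype.card_coe, Fintype.card_fin]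
        exact hI
      obtain ⟨φ⟩ := Function.Embedding.nonempty_of_card_le hcard
      have : Nonempty I := ⟨⟨i0, hi0⟩⟩
      obtain ⟨c, hc⟩ := hcon (fun k => (Function.invFun φ k).1.1) (fun k => (Function.invFun φ k).1.2)
      refine ⟨c, ?_⟩
      rw [Set.mem_iInter₂]
      intro i hi
      obtain ⟨k, hk⟩ := Function.invFun_surjective φ.injective ⟨i, hi⟩
      have h2 := hc k
      rw [hk] at h2
      exact h2
  obtain ⟨c, hc⟩ := h1
  refine ⟨c, fun x hx => ?_⟩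
  rw [Set.mem_iInter] at hc
  obtain ⟨y, hy, he⟩ := hc ⟨x, hx⟩
  have h2 : c - (1 / s) • (x - c) = y := by
    rw [← he]
    ext j
    simp only [Pi.sub_apply, Pi.add_apply, Pi.smul_apply, smul_eq_mul]
    have : 1 + s ≠ 0 := by positivity
    field_simp
    ring
  rw [h2]
  exact hy

/-- a continuous linear functional on four vectors -/
theorem repr_four (F : StrongDual ℝ (Fin 4 → Fin 3 → ℝ)) :
    ∃ w : Fin 4 → Fin 3 → ℝ, ∀ a, F a = ∑ k, w k ⬝ᵥ a k := by
  refine ⟨fun k j => F (Pi.single k (Pi.single j 1)), fun a => ?_⟩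
  have h1 : a = ∑ k, ∑ j, a k j • (Pi.single k (Pi.single j (1 : ℝ)) : Fin 4 → Fin 3 → ℝ) := by
    ext k j
    simp only [Finset.sum_apply, Pi.smul_apply, smul_eq_mul]
    rw [Finset.sum_eq_single k]
    · rw [Finset.sum_eq_single j]
      · simp
      · intro b _ hb
        simp [Ne.symm hb]
      · simp
    · intro b _ hb
      refine Finset.sum_eq_zero fun i _ => ?_
      have h2 : (Pi.single b (Pi.single i (1 : ℝ)) : Fin 4 → Fin 3 → ℝ) k = 0 := Pi.single_eq_of_ne (Ne.symm hb) _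
      rw [h2]
      simp
    · simp
  conv_lhs => rw [h1]
  simp only [map_sum, map_smul, smul_eq_mul, dotProduct]
  exact Finset.sum_congr rfl fun k _ => Finset.sum_congr rfl fun j _ => mul_comm _ _

/-- four compact convex sets without common point are separated -/
theorem separate_four {C : Fin 4 → Set (Fin 3 → ℝ)} (hc : ∀ k, IsCompact (C k)) (hcv : ∀ k, Convex ℝ (C k))
    (h : ¬ ∃ c, ∀ k, c ∈ C k) :
    ∃ w : Fin 4 → Fin 3 → ℝ, ∑ k, w k = 0 ∧ ∀ a : Fin 4 → Fin 3 → ℝ, (∀ k, a k ∈ C k) → ∑ k, w k ⬝ᵥ a k < 0 := by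
  obtain ⟨D, hD⟩ : ∃ D : Set (Fin 4 → Fin 3 → ℝ), D = Set.range fun (c : Fin 3 → ℝ) (_ : Fin 4) => c := ⟨_, rfl⟩
  have hDs : D = (LinearMap.range (LinearMap.pi fun _ : Fin 4 => (LinearMap.id : (Fin 3 → ℝ) →ₗ[ℝ] (Fin 3 → ℝ))) :
      Set (Fin 4 → Fin 3 → ℝ)) := by
    rw [hD, LinearMap.coe_range]
    congr 1
  have hDcl : IsClosed D := by
    rw [hDs]
    exact Submodule.closed_of_finiteDimensional _
  have hDcv : Convex ℝ D := by
    rw [hDs]
    exact Submodule.convex _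
  have hdisj : Disjoint (Set.univ.pi C) D := by
    rw [Set.disjoint_left]
    intro a ha hb
    rw [hD] at hb
    obtain ⟨c, rfl⟩ := hb
    exact h ⟨c, fun k => ha k (Set.mem_univ k)⟩
  obtain ⟨F, u, t, hu, hut, ht⟩ := geometric_hahn_banach_compact_closed (convex_pi fun k _ => hcv k)
    (isCompact_univ_pi hc) hDcv hDcl hdisj
  obtain ⟨w, hw⟩ := repr_four F
  have h0 : ∀ c : Fin 3 → ℝ, (∑ k, w k) ⬝ᵥ c = 0 := by
    intro c
    have h1 : ∀ r : ℝ, t < r * ((∑ k, w k) ⬝ᵥ c) := by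
      intro r
      have h2 := ht (fun _ => r • c) (by rw [hD]; exact ⟨r • c, rfl⟩)
      rw [hw] at h2
      rw [sum_dotProduct, Finset.mul_sum]
      refine h2.trans_le (le_of_eq ?_)
      exact Finset.sum_congr rfl fun k _ => by rw [dotProduct_smul, smul_eq_mul]
    by_contra hne
    have h3 := h1 ((t - 1) / ((∑ k, w k) ⬝ᵥ c))
    rw [div_mul_cancel₀ _ hne] at h3
    linarith
  refine ⟨w, ?_, fun a ha => ?_⟩
  · ext j
    have h4 := h0 (Pi.single j 1)
    rw [dotProduct_single, mul_one] at h4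
    exact h4
  · have h5 := hu a (fun k _ => ha k)
    have h6 := ht 0 (by rw [hD]; exact ⟨0, rfl⟩)
    rw [map_zero] at h6
    rw [hw] at h5
    linarith

/-- a simplex around `K` which is nearly filled by `K` -/
structure Near (K : Set (Fin 3 → ℝ)) (s : ℝ) (v : Fin 4 → Fin 3 → ℝ) (b : Fin 4 → ℝ)
    (x y : Fin 4 → Fin 3 → ℝ) : Prop where
  sum_v : ∑ k, v k = 0
  sum_b : ∑ k, b k = 1
  le : ∀ k, ∀ z ∈ K, v k ⬝ᵥ z ≤ b k
  mem : ∀ k, x k ∈ K
  far : ∀ k, ∀ z ∈ K, v k ⬝ᵥ x k ≤ v k ⬝ᵥ z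
  memy : ∀ k, y k ∈ K
  touch : ∀ k, v k ⬝ᵥ y k = b k
  big : 1 + s < ∑ k, (b k - v k ⬝ᵥ x k)

/-- **Bodies without an `s`-centre are close to a simplex.** -/
theorem exists_near {K : Set (Fin 3 → ℝ)} (hK : IsCompact K) (hcv : Convex ℝ K) (hne : K.Nonempty) {s : ℝ} (hs : 0 < s)
    (h : ¬ ∃ c : Fin 3 → ℝ, ∀ x ∈ K, c - (1 / s) • (x - c) ∈ K) :
    ∃ v b x y, Near K s v b x y := by
  obtain ⟨p, hp, hpc⟩ := exists_four hK hcv hs h
  obtain ⟨w, hw0, hw⟩ := separate_four (fun k => Cs_compact hK s (p k)) (fun k => Cs_convex hcv s (p k)) hpc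
  have hmax : ∀ k, ∃ y ∈ K, ∀ z ∈ K, w k ⬝ᵥ z ≤ w k ⬝ᵥ y := fun k =>
    hK.exists_isMaxOn hne (f := fun z => w k ⬝ᵥ z) (by fun_prop)
  have hmin : ∀ k, ∃ x ∈ K, ∀ z ∈ K, w k ⬝ᵥ x ≤ w k ⬝ᵥ z := fun k =>
    hK.exists_isMinOn hne (f := fun z => w k ⬝ᵥ z) (by fun_prop)
  choose y hy hymax using hmax
  choose x hx hxmin using hmin
  have h1s : (0 : ℝ) < 1 + s := by linarith
  have h1 : s * ∑ k, w k ⬝ᵥ y k + ∑ k, w k ⬝ᵥ p k < 0 := by
    have h2 := hw (fun k => (s / (1 + s)) • y k + (1 / (1 + s)) • p k) (fun k => ⟨y k, hy k, rfl⟩)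
    have h3 : ∑ k, w k ⬝ᵥ ((s / (1 + s)) • y k + (1 / (1 + s)) • p k) =
        (s * ∑ k, w k ⬝ᵥ y k + ∑ k, w k ⬝ᵥ p k) / (1 + s) := by
      rw [Finset.mul_sum, ← Finset.sum_add_distrib, Finset.sum_div]
      refine Finset.sum_congr rfl fun k _ => ?_
      rw [dotProduct_add, dotProduct_smul, dotProduct_smul, smul_eq_mul, smul_eq_mul]
      ring
    rw [h3] at h2
    by_contra hcon
    push Not at hcon
    exact absurd (div_nonneg hcon h1s.le) (not_le.2 h2)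
  obtain ⟨z0, hz0⟩ := hne
  have hz : ∑ k, w k ⬝ᵥ z0 = 0 := by
    rw [← sum_dotProduct, hw0, zero_dotProduct]
  have hxp : ∑ k, w k ⬝ᵥ x k ≤ ∑ k, w k ⬝ᵥ p k := Finset.sum_le_sum fun k _ => hxmin k _ (hp k)
  have hT : 0 < ∑ k, w k ⬝ᵥ y k := by
    have h2 : 0 ≤ ∑ k, w k ⬝ᵥ y k := by
      rw [← hz]
      exact Finset.sum_le_sum fun k _ => hymax k z0 hz0
    rcases h2.lt_or_eq with h3 | h3
    · exact h3
    · exfalso
      have h4 : ∀ k, ∀ z ∈ K, w k ⬝ᵥ z = w k ⬝ᵥ y k := by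
        intro k z hzK
        have h5 : ∑ k, (w k ⬝ᵥ y k - w k ⬝ᵥ z) = 0 := by
          rw [Finset.sum_sub_distrib, ← h3, ← sum_dotProduct, hw0, zero_dotProduct, sub_zero]
        have h6 := (Finset.sum_eq_zero_iff_of_nonneg fun k _ => sub_nonneg.2 (hymax k z hzK)).1 h5 k
          (Finset.mem_univ k)
        linarith
      have h7 : ∑ k, w k ⬝ᵥ p k = ∑ k, w k ⬝ᵥ y k := Finset.sum_congr rfl fun k _ => h4 k _ (hp k)
      rw [h7, ← h3] at h1
      simp at h1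
  obtain ⟨T, hTd⟩ : ∃ T : ℝ, T = ∑ k, w k ⬝ᵥ y k := ⟨_, rfl⟩
  rw [← hTd] at hT h1
  have hTi : 0 ≤ 1 / T := by positivity
  have hdot : ∀ (k : Fin 4) (z : Fin 3 → ℝ), ((1 / T) • w k) ⬝ᵥ z = (1 / T) * (w k ⬝ᵥ z) := fun k z => by
    rw [smul_dotProduct, smul_eq_mul]
  refine ⟨fun k => (1 / T) • w k, fun k => (1 / T) * (w k ⬝ᵥ y k), x, y, ?_, ?_, ?_, hx, ?_, hy, ?_, ?_⟩
  · rw [← Finset.smul_sum, hw0, smul_zero]
  · rw [← Finset.mul_sum, ← hTd]
    field_simp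
  · intro k z hzK
    rw [hdot]
    exact mul_le_mul_of_nonneg_left (hymax k z hzK) hTi
  · intro k z hzK
    rw [hdot, hdot]
    exact mul_le_mul_of_nonneg_left (hxmin k z hzK) hTi
  · intro k
    rw [hdot]
  · have h8 : ∑ k, ((1 / T) * (w k ⬝ᵥ y k) - ((1 / T) • w k) ⬝ᵥ x k) = (1 / T) * (T - ∑ k, w k ⬝ᵥ x k) := by
      have h9 : (1 / T) * T = ∑ k, (1 / T) * (w k ⬝ᵥ y k) := by
        rw [← Finset.mul_sum, ← hTd]
      rw [mul_sub, h9, Finset.mul_sum, ← Finset.sum_sub_distrib]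
      exact Finset.sum_congr rfl fun k _ => by rw [hdot]
    rw [h8, one_div, inv_mul_eq_div, lt_div_iff₀ hT]
    nlinarith

namespace Near

variable {K : Set (Fin 3 → ℝ)} {s : ℝ} {v : Fin 4 → Fin 3 → ℝ} {b : Fin 4 → ℝ} {x y : Fin 4 → Fin 3 → ℝ}

/-- the barycentric coordinates have sum one -/
theorem sum_L (h : Near K s v b x y) (z : Fin 3 → ℝ) : ∑ k, (b k - v k ⬝ᵥ z) = 1 := by
  rw [Finset.sum_sub_distrib, ← sum_dotProduct, h.sum_v, zero_dotProduct, sub_zero, h.sum_b]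

theorem L_le (h : Near K s v b x y) (k : Fin 4) {z : Fin 3 → ℝ} (hz : z ∈ K) : b k - v k ⬝ᵥ z ≤ 1 := by
  rw [← h.sum_L z]
  exact Finset.single_le_sum (f := fun k => b k - v k ⬝ᵥ z) (fun l _ => sub_nonneg.2 (h.le l z hz))
    (Finset.mem_univ k)

/-- the deficits -/
theorem eps (h : Near K s v b x y) : ∑ k, (1 - (b k - v k ⬝ᵥ x k)) < 3 - s := by
  rw [Finset.sum_sub_distrib]
  simp only [Finset.sum_const, Finset.card_univ, Fintype.card_fin, nsmul_eq_mul, mul_one, Nat.cast_ofNat]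
  linarith [h.big]

/-- the coordinates of the points `x k` form a nonsingular matrix, hence the vectors `v k` span -/
theorem span (h : Near K s v b x y) (hs : 2 ≤ s) (u : Fin 3 → ℝ) (hu : ∀ k, v k ⬝ᵥ u = 0) : u = 0 := by
  by_contra hne
  obtain ⟨A, hA⟩ : ∃ A : Matrix (Fin 4) (Fin 4) ℝ, A = Matrix.of fun j => Fin.cons (b j) (v j) := ⟨_, rfl⟩
  have hdet : A.det = 0 := by
    rw [← Matrix.exists_mulVec_eq_zero_iff]
    refine ⟨Fin.cons 0 u, ?_, ?_⟩
    · intro h0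
      apply hne
      ext j
      have := congrFun h0 j.succ
      simpa using this
    · ext j
      rw [hA]
      simp only [mulVec, Matrix.of_apply, dotProduct, Fin.sum_univ_succ (n := 3), Fin.cons_zero, Fin.cons_succ,
        mul_zero, zero_add, Pi.zero_apply]
      exact hu j
  obtain ⟨c, hc0, hc⟩ := Matrix.exists_vecMul_eq_zero_iff.2 hdet
  have hb : ∑ j, c j * b j = 0 := by
    have := congrFun hc 0
    rw [hA] at this
    simpa [vecMul, dotProduct] using this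
  have hv : ∀ i : Fin 3, ∑ j, c j * v j i = 0 := by
    intro i
    have := congrFun hc i.succ
    rw [hA] at this
    simpa [vecMul, dotProduct] using this
  -- the combination vanishes at every point
  have hL : ∀ z : Fin 3 → ℝ, ∑ j, c j * (b j - v j ⬝ᵥ z) = 0 := by
    intro z
    have h1 : ∑ j, c j * (v j ⬝ᵥ z) = 0 := by
      have h2 : ∑ j, c j * (v j ⬝ᵥ z) = ∑ i, (∑ j, c j * v j i) * z i := by
        simp only [dotProduct, Finset.mul_sum, Finset.sum_mul]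
        rw [Finset.sum_comm]
        exact Finset.sum_congr rfl fun i _ => Finset.sum_congr rfl fun j _ => by ring
      rw [h2]
      simp only [hv, zero_mul, Finset.sum_const_zero]
    simp only [mul_sub, Finset.sum_sub_distrib, hb, h1, sub_zero]
  obtain ⟨k, hk⟩ := Finite.exists_max fun j => |c j|
  have hck : 0 < |c k| := by
    by_contra hcon
    apply hc0
    ext j
    have := hk j
    have h2 := abs_nonneg (c j)
    simp only [Pi.zero_apply]
    rw [← abs_eq_zero]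
    linarith
  obtain ⟨e, he⟩ : ∃ e : Fin 4 → ℝ, e = fun j => 1 - (b j - v j ⬝ᵥ x j) := ⟨_, rfl⟩
  have he0 : ∀ j, 0 ≤ e j := fun j => by rw [he]; exact sub_nonneg.2 (h.L_le j (h.mem j))
  have hesum : ∑ j, e j < 1 := by
    have := h.eps
    rw [he]
    linarith
  have hMle : ∀ (j : Fin 4) (t : ℝ), (∀ l, l ≠ j → |c l| ≤ t) → |c j| * (1 - e j) ≤ t * e j := by
    intro j t ht
    have h1 := hL (x j)
    rw [← Finset.add_sum_erase _ _ (Finset.mem_univ j)] at h1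
    have h2 : |c j * (b j - v j ⬝ᵥ x j)| = |∑ l ∈ Finset.univ.erase j, c l * (b l - v l ⬝ᵥ x j)| := by
      rw [eq_neg_of_add_eq_zero_left h1, abs_neg]
    have h3 : 0 ≤ b j - v j ⬝ᵥ x j := sub_nonneg.2 (h.le j _ (h.mem j))
    rw [abs_mul, abs_of_nonneg h3] at h2
    have h4 : 1 - e j = b j - v j ⬝ᵥ x j := by rw [he]; ring
    rw [h4, h2]
    have h5 : ∑ l ∈ Finset.univ.erase j, (b l - v l ⬝ᵥ x j) = e j := by
      have h6 := h.sum_L (x j)
      rw [← Finset.add_sum_erase _ _ (Finset.mem_univ j)] at h6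
      rw [he]
      simp only
      linarith
    rw [← h5, Finset.mul_sum]
    refine (Finset.abs_sum_le_sum_abs _ _).trans (Finset.sum_le_sum fun l hl => ?_)
    rw [abs_mul, abs_of_nonneg (sub_nonneg.2 (h.le l _ (h.mem j)))]
    exact mul_le_mul_of_nonneg_right (ht l (Finset.ne_of_mem_erase hl)) (sub_nonneg.2 (h.le l _ (h.mem j)))
  -- the others are small
  have hsmall : ∀ l, l ≠ k → |c l| ≤ |c k| * (e l / (1 - e l)) ∧ e l / (1 - e l) * e k < 1 - e k ∧ e l < 1 := by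
    intro l hl
    have h1 := hMle l |c k| (fun j _ => hk j)
    have h2 : e l + e k ≤ ∑ j, e j := by
      rw [← Finset.sum_pair hl (f := e)]
      exact Finset.sum_le_sum_of_subset_of_nonneg (Finset.subset_univ _) fun j _ _ => he0 j
    have h3 : 0 < 1 - e l := by linarith [he0 k]
    refine ⟨?_, ?_, by linarith⟩
    · rw [mul_div_assoc', le_div_iff₀ h3]
      exact h1
    · rw [div_mul_eq_mul_div, div_lt_iff₀ h3]
      nlinarith [he0 k, he0 l]
  have hother : ∃ l0 : Fin 4, l0 ≠ k ∧ ∀ l, l ≠ k → e l / (1 - e l) ≤ e l0 / (1 - e l0) := by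
    obtain ⟨l0, hl0, hm⟩ := Finset.exists_max_image (Finset.univ.erase k) (fun l => e l / (1 - e l)) (by
      exact ⟨k + 1, Finset.mem_erase.2 ⟨(by decide : ∀ k : Fin 4, k + 1 ≠ k) k, Finset.mem_univ _⟩⟩)
    exact ⟨l0, Finset.ne_of_mem_erase hl0, fun l hl => hm l (Finset.mem_erase.2 ⟨hl, Finset.mem_univ _⟩)⟩
  obtain ⟨l0, hl0, hm⟩ := hother
  have h7 := hMle k (|c k| * (e l0 / (1 - e l0))) (fun l hl =>
    (hsmall l hl).1.trans (mul_le_mul_of_nonneg_left (hm l hl) (abs_nonneg _)))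
  have h8 := (hsmall l0 hl0).2.1
  have h9 := mul_lt_mul_of_pos_left h8 hck
  nlinarith

end Near

end Pool.Agent.Helper36.FX
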