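import Pool.Agent.Helper36.FX.Phi

/-!
# MP_be0fb5, full answer: the averaged functional in the coordinates of an obtuse superbase
-/

set_option autoImplicit false

namespace Pool.Agent.Helper36.FX

open Matrix Pool.Agent.Helper12.LW Pool.Agent.Helper73.FX
open Pool.Agent.Helper84.FL (Superbase)

/-- the value at an unordered pair -/
def ix (a : Fin 6 → Bool) (l m : Fin 4) : Bool :=
  match l, m with
  | 0, 1 => a 0 | 1, 0 => a 0
  | 0, 2 => a 1 | 2, 0 => a 1
  | 0, 3 => a 2 | 3, 0 => a 2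
  | 1, 2 => a 3 | 2, 1 => a 3
  | 1, 3 => a 4 | 3, 1 => a 4
  | 2, 3 => a 5 | 3, 2 => a 5
  | _, _ => false

theorem comb : ∀ a : Fin 6 → Bool,
    (∃ S : Fin 4 → Bool, (∃ l, S l = true) ∧ (∃ l, S l = false) ∧
      ∀ l m, S l ≠ S m → ix a l m = false) ∨
    ∃ (k : Fin 6) (τ : Equiv.Perm (Fin 4)), ∀ l m, l ≠ m → ix a (τ l) (τ m) = !zer k l m := by
  decide +kernel

theorem symm_of_posDef {Q : Matrix (Fin 3) (Fin 3) ℝ} (hQ : Q.PosDef) : Q.IsSymm := by
  have := hQ.isHermitian.eq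
  rwa [conjTranspose_eq_transpose_of_trivial] at this

theorem qf_pos {Q : Matrix (Fin 3) (Fin 3) ℝ} (hQ : Q.PosDef) {v : Fin 3 → ℤ} (hv : v ≠ 0) :
    0 < qf Q (toR v) := by
  have hv' : toR v ≠ 0 := by
    intro h
    apply hv
    funext i
    have := congrFun h i
    simpa [toR] using this
  have h := hQ.dotProduct_mulVec_pos hv'
  simpa [qf] using h

variable {Q Q' : Matrix (Fin 3) (Fin 3) ℝ} {f : Fin 4 → Fin 3 → ℤ}

theorem ix_eq (Q : Matrix (Fin 3) (Fin 3) ℝ) (hQ : Q.IsSymm) (f : Fin 4 → Fin 3 → ℤ) :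
    ∃ a : Fin 6 → Bool, ∀ l m, l ≠ m → (ix a l m = true ↔ 0 < sp Q f l m) := by
  classical
  refine ⟨![decide (0 < sp Q f 0 1), decide (0 < sp Q f 0 2), decide (0 < sp Q f 0 3),
    decide (0 < sp Q f 1 2), decide (0 < sp Q f 1 3), decide (0 < sp Q f 2 3)], ?_⟩
  have hc := sp_comm hQ f
  have h10 := hc 1 0
  have h20 := hc 2 0
  have h30 := hc 3 0
  have h21 := hc 2 1
  have h31 := hc 3 1
  have h32 := hc 3 2
  intro l m hlm
  fin_cases l <;> fin_cases m <;> first
    | exact absurd rfl hlm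
    | simp [ix, h10, h20, h30, h21, h31, h32]

/-- the zero pattern of an obtuse superbase -/
theorem exists_pat (hQ : Q.PosDef) (hf : Superbase f) (hob : ∀ l m, l ≠ m → 0 ≤ sp Q f l m) :
    ∃ (k : Fin 6) (τ : Equiv.Perm (Fin 4)), Pat Q (fun i => f (τ i)) k := by
  have hs := symm_of_posDef hQ
  obtain ⟨a, ha⟩ := ix_eq Q hs f
  have hfalse : ∀ l m, l ≠ m → ix a l m = false → sp Q f l m = 0 := by
    intro l m hlm h
    have h1 : ¬ 0 < sp Q f l m := by
      rw [← ha l m hlm, h]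
      simp
    exact le_antisymm (not_lt.1 h1) (hob l m hlm)
  rcases comb a with ⟨S, ⟨l1, h1⟩, ⟨l0, h0⟩, hS⟩ | ⟨k, τ, h⟩
  · exfalso
    have hq : qf Q (toR (∑ l, (if S l = true then (1 : ℤ) else 0) • f l)) = 0 := by
      rw [selling_qf hs hf.sum]
      have hz : ∀ l m, sp Q f l m * ((((if S l = true then (1 : ℤ) else 0) : ℤ) : ℝ) -
          (((if S m = true then (1 : ℤ) else 0) : ℤ) : ℝ)) ^ 2 = 0 := by
        intro l m
        by_cases hSS : S l = S m
        · rw [hSS]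
          simp
        · have hlm : l ≠ m := fun e => hSS (by rw [e])
          rw [hfalse l m hlm (hS l m hSS), zero_mul]
      simp only [hz, Finset.sum_const_zero, zero_div]
    have hne : (∑ l, (if S l = true then (1 : ℤ) else 0) • f l) ≠ 0 := by
      intro h2
      have h3 := rel hf _ h2 l1 l0
      rw [h1, h0] at h3
      simp at h3
    exact absurd hq (qf_pos hQ hne).ne'
  · refine ⟨k, τ, fun l m hlm => ⟨fun hz => ?_, fun hz => ?_⟩⟩
    · have h2 := h l m hlm
      rw [hz] at h2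
      exact hfalse _ _ (τ.injective.ne hlm) (by simpa using h2)
    · have h2 := h l m hlm
      rw [hz] at h2
      exact (ha _ _ (τ.injective.ne hlm)).1 (by simpa using h2)

/-- **the averaged functional** in the coordinates of an obtuse superbase -/
theorem Phi_formula (hQ : Q.PosDef) (hf : Superbase f) (hob : ∀ l m, l ≠ m → 0 ≤ sp Q f l m) :
    ∃ (k : Fin 6) (τ : Equiv.Perm (Fin 4)), Pat Q (fun i => f (τ i)) k ∧
      ∀ Q' : Matrix (Fin 3) (Fin 3) ℝ, Q'.IsSymm →
        Phi Q Q' = PP Q' f + et k (sp Q' fun i => f (τ i)) := by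
  obtain ⟨k, τ, h⟩ := exists_pat hQ hf hob
  refine ⟨k, τ, h, fun Q' hQ' => ?_⟩
  rw [Phi_std (symm_of_posDef hQ) hQ' (superbase_perm hf τ) h, PP_perm]

theorem et_zero {k : Fin 6} {g : Fin 4 → Fin 3 → ℤ} (h : Pat Q g k) : et k (sp Q g) = 0 := by
  have h1 : ∀ l m, l ≠ m → zer k l m = true → sp Q g l m = 0 := fun l m hlm => (h l m hlm).1
  fin_cases k
  · rfl
  · simp only [et]
    rw [h1 0 1 (by decide) rfl]
    norm_num
  · simp only [et]
    rw [h1 0 1 (by decide) rfl, h1 2 3 (by decide) rfl]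
    norm_num
  · simp only [et]
    rw [h1 0 1 (by decide) rfl, h1 0 2 (by decide) rfl]
    norm_num
  · simp only [et]
    rw [h1 0 1 (by decide) rfl, h1 0 2 (by decide) rfl, h1 1 2 (by decide) rfl]
    norm_num
  · simp only [et]
    rw [h1 0 1 (by decide) rfl, h1 1 2 (by decide) rfl, h1 2 3 (by decide) rfl]
    norm_num

/-- the value at the form itself -/
theorem Phi_self (hQ : Q.PosDef) (hf : Superbase f) (hob : ∀ l m, l ≠ m → 0 ≤ sp Q f l m) :
    Phi Q Q = PP Q f := by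
  obtain ⟨k, τ, h, h1⟩ := Phi_formula hQ hf hob
  rw [h1 Q (symm_of_posDef hQ), et_zero h, add_zero]

theorem Phi_nonneg (hQ' : ∀ v, 0 ≤ qf Q' (toR v)) : 0 ≤ Phi Q Q' := by
  rw [Phi]
  refine div_nonneg (Finset.sum_nonneg fun c _ => div_nonneg ?_ (Nat.cast_nonneg _)) (by norm_num)
  exact finsum_nonneg fun v => finsum_nonneg fun _ => hQ' v

end Pool.Agent.Helper36.FX
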