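import Pool.Agent.Helper73.FX.Neigh

/-!
# MP_be0fb5, full answer: the canonical averaged functional

For a positive definite form `Q` let `Phi Q Q'` be one quarter of the sum over the classes of `ℤ³` modulo `2`
of the average of `Q'` over the vectors of minimal `Q`-length of the class.  In the coordinates of every
superbase `f` which is obtuse for `Q` it is `PP Q' f` plus one of six explicit combinations of the
Selling parameters of `Q'`.
-/

set_option autoImplicit false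

namespace Pool.Agent.Helper36.FX

open Matrix Pool.Agent.Helper12.LW Pool.Agent.Helper73.FX
open Pool.Agent.Helper84.FL (Superbase)

/-- the class of an integer vector modulo two -/
def cl (v : Fin 3 → ℤ) : Fin 3 → ZMod 2 := fun i => (v i : ZMod 2)

/-- the vectors of minimal length of a class -/
def MinV (Q : Matrix (Fin 3) (Fin 3) ℝ) (c : Fin 3 → ZMod 2) : Set (Fin 3 → ℤ) :=
  {v | cl v = c ∧ ∀ w, cl w = c → qf Q (toR v) ≤ qf Q (toR w)}

/-- the averaged functional -/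
noncomputable def Phi (Q Q' : Matrix (Fin 3) (Fin 3) ℝ) : ℝ :=
  (∑ c : Fin 3 → ZMod 2, (∑ᶠ v ∈ MinV Q c, qf Q' (toR v)) / ((MinV Q c).ncard : ℝ)) / 4

/-! ## coordinates -/

/-- the last coordinate is zero -/
def ex (y : Fin 3 → ℤ) : Fin 4 → ℤ := ![y 0, y 1, y 2, 0]

/-- the vector with coordinates `y` -/
def vec (f : Fin 4 → Fin 3 → ℤ) (y : Fin 3 → ℤ) : Fin 3 → ℤ := ∑ l, ex y l • f l

theorem vec_surj {f : Fin 4 → Fin 3 → ℤ} (hf : Superbase f) (z : Fin 3 → ℤ) : ∃ y, vec f y = z := by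
  obtain ⟨a, ha⟩ := hf.span z
  have hs := hf.sum
  rw [Fin.sum_univ_four] at hs
  refine ⟨![a 0 - a 3, a 1 - a 3, a 2 - a 3], ?_⟩
  rw [ha, vec, Fin.sum_univ_four, Fin.sum_univ_four]
  have h3 : f 3 = -(f 0 + f 1 + f 2) := by
    rw [eq_neg_iff_add_eq_zero, ← hs]
    abel
  simp only [ex, Matrix.cons_val_zero, Matrix.cons_val_one, Matrix.cons_val]
  rw [h3]
  funext i
  simp only [Pi.add_apply, Pi.smul_apply, Pi.neg_apply, smul_eq_mul]
  ring

theorem vec_inj {f : Fin 4 → Fin 3 → ℤ} (hf : Superbase f) : Function.Injective (vec f) := by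
  intro y y' h
  have h1 : ∑ l, (ex y l - ex y' l) • f l = 0 := by
    simp only [sub_smul, Finset.sum_sub_distrib]
    rw [sub_eq_zero]
    exact h
  have h2 := fun l => rel hf _ h1 l 3
  have h3 : ex y 3 - ex y' 3 = 0 := by simp [ex]
  funext i
  fin_cases i
  · have := h2 0
    rw [h3] at this
    exact sub_eq_zero.1 (by simpa [ex] using this)
  · have := h2 1
    rw [h3] at this
    exact sub_eq_zero.1 (by simpa [ex] using this)
  · have := h2 2
    rw [h3] at this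
    exact sub_eq_zero.1 (by simpa [ex] using this)

/-- the map on classes -/
def BB (f : Fin 4 → Fin 3 → ℤ) (x : Fin 3 → ZMod 2) : Fin 3 → ZMod 2 :=
  fun i => x 0 * (f 0 i : ZMod 2) + x 1 * (f 1 i : ZMod 2) + x 2 * (f 2 i : ZMod 2)

theorem cl_vec (f : Fin 4 → Fin 3 → ℤ) (y : Fin 3 → ℤ) : cl (vec f y) = BB f (cl y) := by
  funext i
  simp only [cl, vec, BB, Fin.sum_univ_four, ex, Matrix.cons_val_zero, Matrix.cons_val_one,
    Matrix.cons_val, Pi.add_apply, Pi.smul_apply, smul_eq_mul]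
  push_cast
  ring

theorem cl_surj (c : Fin 3 → ZMod 2) : ∃ z, cl z = c := by
  refine ⟨fun i => ((c i).val : ℤ), ?_⟩
  funext i
  simp [cl]

theorem BB_bij {f : Fin 4 → Fin 3 → ℤ} (hf : Superbase f) : Function.Bijective (BB f) := by
  have hs : Function.Surjective (BB f) := by
    intro c
    obtain ⟨z, hz⟩ := cl_surj c
    obtain ⟨y, hy⟩ := vec_surj hf z
    exact ⟨cl y, by rw [← cl_vec, hy, hz]⟩
  exact ⟨Finite.injective_iff_surjective.2 hs, hs⟩

/-! ## patterns -/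

/-- the pairs with zero parameter -/
def zer (k : Fin 6) (l m : Fin 4) : Bool :=
  match k, l, m with
  | 1, 0, 1 => true | 1, 1, 0 => true
  | 2, 0, 1 => true | 2, 1, 0 => true | 2, 2, 3 => true | 2, 3, 2 => true
  | 3, 0, 1 => true | 3, 1, 0 => true | 3, 0, 2 => true | 3, 2, 0 => true
  | 4, 0, 1 => true | 4, 1, 0 => true | 4, 0, 2 => true | 4, 2, 0 => true | 4, 1, 2 => true
  | 4, 2, 1 => true
  | 5, 0, 1 => true | 5, 1, 0 => true | 5, 1, 2 => true | 5, 2, 1 => true | 5, 2, 3 => true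
  | 5, 3, 2 => true
  | _, _, _ => false

/-- the coordinates of the minimal vectors -/
noncomputable def Y (k : Fin 6) (x : Fin 3 → ZMod 2) : Finset (Fin 3 → ℤ) :=
  (Fintype.piFinset fun _ : Fin 3 => Finset.Icc (-2 : ℤ) 2).filter fun y =>
    cl y = x ∧ ∀ l m, l ≠ m → zer k l m = false → (ex y l - ex y m) ^ 2 ≤ 1

/-- the table of the sums of squares -/
def tb (k : Fin 6) (l m : Fin 4) : ℤ :=
  if l = m then 0 else
  match k, l, m with
  | 1, 0, 1 => 144 | 1, 1, 0 => 144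
  | 2, 0, 1 => 128 | 2, 1, 0 => 128 | 2, 2, 3 => 128 | 2, 3, 2 => 128
  | 3, 0, 1 => 192 | 3, 1, 0 => 192 | 3, 0, 2 => 192 | 3, 2, 0 => 192
  | 4, 0, 1 => 192 | 4, 1, 0 => 192 | 4, 0, 2 => 192 | 4, 2, 0 => 192 | 4, 1, 2 => 192
  | 4, 2, 1 => 192
  | 5, 0, 1 => 192 | 5, 1, 0 => 192 | 5, 1, 2 => 288 | 5, 2, 1 => 288 | 5, 2, 3 => 192
  | 5, 3, 2 => 192
  | _, _, _ => 96

theorem card_Y : ∀ (k : Fin 6) (x : Fin 3 → ZMod 2), (Y k x).card ≠ 0 ∧ (Y k x).card ∣ 24 := by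
  decide +kernel

theorem tb_eq : ∀ (k : Fin 6) (l m : Fin 4),
    ∑ x : Fin 3 → ZMod 2, ((24 / (Y k x).card : ℕ) : ℤ) * ∑ y ∈ Y k x, (ex y l - ex y m) ^ 2 =
      tb k l m := by
  decide +kernel

theorem sq_le_one {a : ℤ} (h : a ^ 2 ≤ 1) : -1 ≤ a ∧ a ≤ 1 := by
  constructor <;> nlinarith

theorem mem_Y {k : Fin 6} {x : Fin 3 → ZMod 2} {y : Fin 3 → ℤ} :
    y ∈ Y k x ↔ cl y = x ∧ ∀ l m, l ≠ m → zer k l m = false → (ex y l - ex y m) ^ 2 ≤ 1 := by
  rw [Y, Finset.mem_filter]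
  refine ⟨fun h => h.2, fun h => ⟨?_, h⟩⟩
  have hab : ∀ l m, l ≠ m → zer k l m = false → -1 ≤ ex y l - ex y m ∧ ex y l - ex y m ≤ 1 :=
    fun l m hlm hz => sq_le_one (h.2 l m hlm hz)
  have z03 : ∀ k, zer k 0 3 = false := by decide
  have z13 : ∀ k, zer k 1 3 = false := by decide
  have z23 : ∀ k, zer k 2 3 = false ∨ zer k 0 2 = false := by decide
  have h0 := hab 0 3 (by decide) (z03 k)
  have h1 := hab 1 3 (by decide) (z13 k)
  have e0 : ex y 0 = y 0 := rfl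
  have e1 : ex y 1 = y 1 := rfl
  have e2 : ex y 2 = y 2 := rfl
  have e3 : ex y 3 = 0 := rfl
  have h2 : -2 ≤ y 2 ∧ y 2 ≤ 2 := by
    rcases z23 k with hz | hz
    · have := hab 2 3 (by decide) hz
      omega
    · have := hab 0 2 (by decide) hz
      omega
  rw [Fintype.mem_piFinset]
  intro i
  rw [Finset.mem_Icc]
  fin_cases i
  · change -2 ≤ y 0 ∧ y 0 ≤ 2
    omega
  · change -2 ≤ y 1 ∧ y 1 ≤ 2
    omega
  · exact h2

/-! ## the minimal vectors -/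

/-- the representative with coordinates zero and one -/
def rp (x : Fin 3 → ZMod 2) : Fin 3 → ℤ := fun i => ((x i).val : ℤ)

theorem cl_rp (x : Fin 3 → ZMod 2) : cl (rp x) = x := by
  funext i
  simp [cl, rp]

theorem rp_bd (x : Fin 3 → ZMod 2) (l m : Fin 4) :
    -1 ≤ ex (rp x) l - ex (rp x) m ∧ ex (rp x) l - ex (rp x) m ≤ 1 := by
  have h : ∀ i, 0 ≤ rp x i ∧ rp x i ≤ 1 := by
    intro i
    have h1 := ZMod.val_lt (x i)
    simp only [rp]
    omega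
  have h' : ∀ l, 0 ≤ ex (rp x) l ∧ ex (rp x) l ≤ 1 := by
    intro l
    fin_cases l
    · exact h 0
    · exact h 1
    · exact h 2
    · exact ⟨le_refl _, zero_le_one⟩
  have h1 := h' l
  have h2 := h' m
  omega

theorem int_aux {a b s : ℤ} (h : a = b + 2 * s) (h1 : -1 ≤ b) (h2 : b ≤ 1) :
    b ^ 2 ≤ a ^ 2 ∧ (a ^ 2 ≤ 1 → a ^ 2 = b ^ 2) := by
  have hb : b = -1 ∨ b = 0 ∨ b = 1 := by omega
  constructor
  · rcases hb with hb | hb | hb
    · have ha : a ≠ 0 := by omega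
      have := sq_pos_of_ne_zero ha
      rw [hb]
      omega
    · rw [hb]
      nlinarith [sq_nonneg a]
    · have ha : a ≠ 0 := by omega
      have := sq_pos_of_ne_zero ha
      rw [hb]
      omega
  · intro ha
    obtain ⟨h3, h4⟩ := sq_le_one ha
    have ha' : a = -1 ∨ a = 0 ∨ a = 1 := by omega
    rcases hb with hb | hb | hb <;> rcases ha' with ha' | ha' | ha' <;>
      first
      | (exfalso; omega)
      | (rw [ha', hb]; norm_num)
      | (rw [ha', hb])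

theorem par {x : Fin 3 → ZMod 2} {y : Fin 3 → ℤ} (h : cl y = x) (l m : Fin 4) :
    (ex (rp x) l - ex (rp x) m) ^ 2 ≤ (ex y l - ex y m) ^ 2 ∧
      ((ex y l - ex y m) ^ 2 ≤ 1 → (ex y l - ex y m) ^ 2 = (ex (rp x) l - ex (rp x) m) ^ 2) := by
  have h1 : ∀ i, ∃ t, y i = rp x i + 2 * t := by
    intro i
    have h2 : ((y i : ℤ) : ZMod 2) = ((rp x i : ℤ) : ZMod 2) := by
      have h3 := congrFun h i
      have h4 := congrFun (cl_rp x) i
      simp only [cl] at h3 h4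
      rw [h3, h4]
    have h5 := (ZMod.intCast_eq_intCast_iff_dvd_sub _ _ 2).1 h2.symm
    obtain ⟨t, ht⟩ := h5
    exact ⟨t, by push_cast at ht; omega⟩
  have h2 : ∀ l, ∃ t, ex y l = ex (rp x) l + 2 * t := by
    intro l
    fin_cases l
    · exact h1 0
    · exact h1 1
    · exact h1 2
    · exact ⟨0, rfl⟩
  obtain ⟨t, ht⟩ := h2 l
  obtain ⟨t', ht'⟩ := h2 m
  exact int_aux (s := t - t') (by rw [ht, ht']; ring) (rp_bd x l m).1 (rp_bd x l m).2

section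

variable {Q Q' : Matrix (Fin 3) (Fin 3) ℝ} {f : Fin 4 → Fin 3 → ℤ}

theorem qf_vec (hQ : Q.IsSymm) (hf : ∑ l, f l = 0) (y : Fin 3 → ℤ) :
    qf Q (toR (vec f y)) = (∑ l, ∑ m, sp Q f l m * (((ex y l - ex y m) ^ 2 : ℤ) : ℝ)) / 2 := by
  rw [vec, selling_qf hQ hf]
  push_cast
  rfl

/-- the zero pattern of `Q` in the coordinates of `f` -/
def Pat (Q : Matrix (Fin 3) (Fin 3) ℝ) (f : Fin 4 → Fin 3 → ℤ) (k : Fin 6) : Prop :=
  ∀ l m, l ≠ m → (zer k l m = true → sp Q f l m = 0) ∧ (zer k l m = false → 0 < sp Q f l m)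

theorem Pat.nonneg {k : Fin 6} (h : Pat Q f k) {l m : Fin 4} (hlm : l ≠ m) : 0 ≤ sp Q f l m := by
  cases hz : zer k l m with
  | true => rw [(h l m hlm).1 hz]
  | false => exact ((h l m hlm).2 hz).le

theorem term_le {k : Fin 6} (h : Pat Q f k) {x : Fin 3 → ZMod 2} {y : Fin 3 → ℤ} (hy : cl y = x)
    (l m : Fin 4) :
    sp Q f l m * (((ex (rp x) l - ex (rp x) m) ^ 2 : ℤ) : ℝ) ≤
      sp Q f l m * (((ex y l - ex y m) ^ 2 : ℤ) : ℝ) := by
  by_cases hlm : l = m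
  · subst hlm
    simp
  · exact mul_le_mul_of_nonneg_left (by exact_mod_cast (par hy l m).1) (h.nonneg hlm)

theorem rp_le (hQ : Q.IsSymm) (hf : ∑ l, f l = 0) {k : Fin 6} (h : Pat Q f k) {x : Fin 3 → ZMod 2}
    {y : Fin 3 → ℤ} (hy : cl y = x) : qf Q (toR (vec f (rp x))) ≤ qf Q (toR (vec f y)) := by
  rw [qf_vec hQ hf, qf_vec hQ hf]
  have h1 : ∑ l, ∑ m, sp Q f l m * (((ex (rp x) l - ex (rp x) m) ^ 2 : ℤ) : ℝ) ≤
      ∑ l, ∑ m, sp Q f l m * (((ex y l - ex y m) ^ 2 : ℤ) : ℝ) :=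
    Finset.sum_le_sum fun l _ => Finset.sum_le_sum fun m _ => term_le h hy l m
  linarith

theorem minV_eq (hQ : Q.IsSymm) (hf : Superbase f) {k : Fin 6} (h : Pat Q f k)
    (x : Fin 3 → ZMod 2) : MinV Q (BB f x) = vec f '' (Y k x : Set (Fin 3 → ℤ)) := by
  ext v
  constructor
  · rintro ⟨hc, hmin⟩
    obtain ⟨y, rfl⟩ := vec_surj hf v
    have hcy : cl y = x := (BB_bij hf).1 (by rw [← cl_vec]; exact hc)
    refine ⟨y, Finset.mem_coe.2 (mem_Y.2 ⟨hcy, ?_⟩), rfl⟩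
    intro l m hlm hz
    by_contra hcon
    have h1 := hmin (vec f (rp x)) (by rw [cl_vec, cl_rp])
    rw [qf_vec hQ hf.sum, qf_vec hQ hf.sum] at h1
    have hpos := (h l m hlm).2 hz
    have h2 : (ex (rp x) l - ex (rp x) m) ^ 2 < (ex y l - ex y m) ^ 2 := by
      obtain ⟨h3, h4⟩ := rp_bd x l m
      have h5 : (ex (rp x) l - ex (rp x) m) ^ 2 ≤ 1 := by nlinarith
      omega
    have h6 : ∑ l, ∑ m, sp Q f l m * (((ex (rp x) l - ex (rp x) m) ^ 2 : ℤ) : ℝ) <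
        ∑ l, ∑ m, sp Q f l m * (((ex y l - ex y m) ^ 2 : ℤ) : ℝ) := by
      refine Finset.sum_lt_sum (fun l _ => Finset.sum_le_sum fun m _ => term_le h hcy l m) ?_
      refine ⟨l, Finset.mem_univ _, ?_⟩
      refine Finset.sum_lt_sum (fun m _ => term_le h hcy l m) ?_
      exact ⟨m, Finset.mem_univ _, mul_lt_mul_of_pos_left (by exact_mod_cast h2) hpos⟩
    linarith
  · rintro ⟨y, hy, rfl⟩
    obtain ⟨hcy, hy2⟩ := mem_Y.1 (Finset.mem_coe.1 hy)
    refine ⟨by rw [cl_vec, hcy], ?_⟩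
    intro w hw
    obtain ⟨y', rfl⟩ := vec_surj hf w
    have hcy' : cl y' = x := (BB_bij hf).1 (by rw [← cl_vec]; exact hw)
    refine le_trans (le_of_eq ?_) (rp_le hQ hf.sum h hcy')
    rw [qf_vec hQ hf.sum, qf_vec hQ hf.sum]
    congr 1
    refine Finset.sum_congr rfl fun l _ => Finset.sum_congr rfl fun m _ => ?_
    by_cases hlm : l = m
    · subst hlm
      simp
    · cases hz : zer k l m with
      | true => rw [(h l m hlm).1 hz, zero_mul, zero_mul]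
      | false => rw [(par hcy l m).2 (hy2 l m hlm hz)]

theorem value (hQ : Q.IsSymm) (hf : Superbase f) {k : Fin 6} (h : Pat Q f k)
    (x : Fin 3 → ZMod 2) :
    (∑ᶠ v ∈ MinV Q (BB f x), qf Q' (toR v)) / ((MinV Q (BB f x)).ncard : ℝ) =
      (∑ y ∈ Y k x, qf Q' (toR (vec f y))) / ((Y k x).card : ℝ) := by
  rw [minV_eq hQ hf h, finsum_mem_image (vec_inj hf).injOn, finsum_mem_coe_finset,
    Set.ncard_image_of_injective _ (vec_inj hf), Set.ncard_coe_finset]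

theorem value2 (hQ' : Q'.IsSymm) (hf : ∑ l, f l = 0) (k : Fin 6) (x : Fin 3 → ZMod 2) :
    (∑ y ∈ Y k x, qf Q' (toR (vec f y))) / ((Y k x).card : ℝ) =
      (∑ l, ∑ m, sp Q' f l m *
        (((((24 / (Y k x).card : ℕ) : ℤ) * ∑ y ∈ Y k x, (ex y l - ex y m) ^ 2 : ℤ)) : ℝ)) / 48 := by
  obtain ⟨hc0, q, hq⟩ := card_Y k x
  have hdiv : 24 / (Y k x).card = q := by
    rw [hq]
    exact Nat.mul_div_cancel_left q (Nat.pos_of_ne_zero hc0)
  have hcR : ((Y k x).card : ℝ) ≠ 0 := by exact_mod_cast hc0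
  have h24 : (24 : ℝ) = (Y k x).card * q := by exact_mod_cast hq
  simp only [qf_vec hQ' hf]
  rw [hdiv, ← Finset.sum_div]
  have hsw : ∑ y ∈ Y k x, ∑ l, ∑ m, sp Q' f l m * (((ex y l - ex y m) ^ 2 : ℤ) : ℝ) =
      ∑ l, ∑ m, sp Q' f l m * (((∑ y ∈ Y k x, (ex y l - ex y m) ^ 2 : ℤ)) : ℝ) := by
    rw [Finset.sum_comm]
    refine Finset.sum_congr rfl fun l _ => ?_
    rw [Finset.sum_comm]
    refine Finset.sum_congr rfl fun m _ => ?_
    rw [Int.cast_sum, Finset.mul_sum]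
  rw [hsw]
  have hq2 : ∑ l, ∑ m, sp Q' f l m *
        ((((q : ℕ) : ℤ) * ∑ y ∈ Y k x, (ex y l - ex y m) ^ 2 : ℤ) : ℝ) =
      (q : ℝ) * ∑ l, ∑ m, sp Q' f l m * (((∑ y ∈ Y k x, (ex y l - ex y m) ^ 2 : ℤ)) : ℝ) := by
    rw [Finset.mul_sum]
    refine Finset.sum_congr rfl fun l _ => ?_
    rw [Finset.mul_sum]
    refine Finset.sum_congr rfl fun m _ => ?_
    rw [Int.cast_mul, Int.cast_natCast]
    ring
  rw [hq2, div_div, div_eq_div_iff (mul_ne_zero two_ne_zero hcR) (by norm_num)]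
  have h48 : (48 : ℝ) = 2 * ((Y k x).card * q) := by rw [← h24]; norm_num
  rw [h48]
  ring

/-- the six combinations -/
noncomputable def et (k : Fin 6) (p : Fin 4 → Fin 4 → ℝ) : ℝ :=
  match k with
  | 0 => 0
  | 1 => p 0 1 / 2
  | 2 => (p 0 1 + p 2 3) / 3
  | 3 => p 0 1 + p 0 2
  | 4 => p 0 1 + p 0 2 + p 1 2
  | 5 => p 0 1 + 2 * p 1 2 + p 2 3

theorem Phi_std (hQ : Q.IsSymm) (hQ' : Q'.IsSymm) (hf : Superbase f) {k : Fin 6} (h : Pat Q f k) :
    Phi Q Q' = PP Q' f + et k (sp Q' f) := by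
  have h1 : Phi Q Q' = (∑ x : Fin 3 → ZMod 2, (∑ l, ∑ m, sp Q' f l m *
        (((((24 / (Y k x).card : ℕ) : ℤ) * ∑ y ∈ Y k x, (ex y l - ex y m) ^ 2 : ℤ)) : ℝ)) / 48) / 4 := by
    rw [Phi, ← (BB_bij hf).sum_comp]
    congr 1
    exact Finset.sum_congr rfl fun x _ => by rw [value hQ hf h, value2 hQ' hf.sum]
  have h2 : (∑ x : Fin 3 → ZMod 2, ∑ l, ∑ m, sp Q' f l m *
        (((((24 / (Y k x).card : ℕ) : ℤ) * ∑ y ∈ Y k x, (ex y l - ex y m) ^ 2 : ℤ)) : ℝ)) =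
      ∑ l, ∑ m, sp Q' f l m * ((tb k l m : ℤ) : ℝ) := by
    rw [Finset.sum_comm]
    refine Finset.sum_congr rfl fun l _ => ?_
    rw [Finset.sum_comm]
    refine Finset.sum_congr rfl fun m _ => ?_
    rw [← Finset.mul_sum, ← Int.cast_sum, tb_eq]
  rw [h1, ← Finset.sum_div, h2, PP_self hQ' hf.sum]
  have hc := sp_comm hQ' f
  have h10 := hc 1 0
  have h20 := hc 2 0
  have h30 := hc 3 0
  have h21 := hc 2 1
  have h31 := hc 3 1
  have h32 := hc 3 2
  simp only [Fin.sum_univ_four, h10, h20, h30, h21, h31, h32]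
  fin_cases k <;> simp [tb, et] <;> ring

end

end Pool.Agent.Helper36.FX
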